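import Mathlib

/-!
# MP_b5aa49_co : a planar triangle-free graph with cograph chromatic number three

`c(G)` is the least `k` such that the vertex set of `G` can be partitioned into `k` sets each of
which induces a cograph, i.e. a graph without an induced path on four vertices.

Question Q1 asks whether some planar triangle-free graph `G` has `c(G) = 3`.
We answer it in the affirmative with an explicit graph on `55` vertices and `96` edges, given with
a straight-line plane drawing at integer points.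

The graph is a path `0-1-2-3` together with three copies of a planar gadget `E(x,y)`, attached to
the pairs `(0,2)`, `(1,3)` and `(0,3)`.  The gadget `E(x,y)` has four vertices `z₁,...,z₄` adjacent
to both `x` and `y`; for every two consecutive `z, z'` of them it has four vertices
`a₁,a₂,b₁,b₂` with `a₁,a₂` adjacent to `z`, with `b₁,b₂` adjacent to `z'`, and with the path
`a₁-b₁-a₂-b₂`; and it has one more vertex `w` adjacent to `z₂` and `z₃`.  In every 2-colouring
of the vertices without a monochromatic induced `P₄` a gadget `E(x,y)` forces `x` and `y` to have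
the same colour: if `x,y` have different colours then `z,z'` must have different colours (if both
have, say, the colour of `x`, then `aᵢ z x z'` and `bᵢ z' x z` make all four of `a₁,a₂,b₁,b₂` have
the other colour, and they form an induced `P₄`), so the `zᵢ` alternate, and then one of the paths
`w z₃ x z₁`, `w z₂ y z₄`, `w z₃ y z₁`, `w z₂ x z₄` is monochromatic.  So the path `0-1-2-3` is
monochromatic, a contradiction.
-/

namespace Pool.Agent.Results.MP_b5aa49_co.PlanarTriangleFreeThree

/-! ## Definitions -/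

/-- A graph is a cograph if it has no induced path on four vertices. -/
def IsCograph {W : Type*} (H : SimpleGraph W) : Prop :=
  IsEmpty (SimpleGraph.pathGraph 4 ↪g H)

/-- The c-chromatic number: the least `k` such that the vertices can be partitioned into `k`
(possibly empty) classes, each inducing a cograph. -/
noncomputable def cChromatic {V : Type*} (G : SimpleGraph V) : ℕ :=
  sInf {k | ∃ f : V → Fin k, ∀ i, IsCograph (G.induce {v | f v = i})}

/-- `G` has a plane drawing with straight edges: the vertices are placed at distinct points of the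
plane, no vertex lies on an edge of which it is not an endpoint, and two distinct edges meet only
in the point of a common endpoint. -/
def HasPlaneDrawing {V : Type*} (G : SimpleGraph V) : Prop :=
  ∃ p : V → ℝ × ℝ, Function.Injective p ∧
    (∀ u v w, G.Adj u v → p w ∈ segment ℝ (p u) (p v) → w = u ∨ w = v) ∧
    ∀ u v x y, G.Adj u v → G.Adj x y → s(u, v) ≠ s(x, y) →
      ∀ q, q ∈ segment ℝ (p u) (p v) → q ∈ segment ℝ (p x) (p y) →
        ∃ w, (w = u ∨ w = v) ∧ (w = x ∨ w = y) ∧ q = p w

/-! ## The graph -/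

/-- the list of edges -/
def E : List (Fin 55 × Fin 55) :=
  [(0, 1), (1, 2), (2, 3),
   (0, 4), (2, 4), (0, 5), (2, 5), (0, 6), (2, 6), (0, 7), (2, 7),
   (4, 8), (4, 9), (5, 10), (5, 11), (8, 10), (10, 9), (9, 11),
   (5, 12), (5, 13), (6, 14), (6, 15), (12, 14), (14, 13), (13, 15),
   (6, 16), (6, 17), (7, 18), (7, 19), (16, 18), (18, 17), (17, 19),
   (5, 20), (6, 20),
   (1, 21), (3, 21), (1, 22), (3, 22), (1, 23), (3, 23), (1, 24), (3, 24),
   (21, 25), (21, 26), (22, 27), (22, 28), (25, 27), (27, 26), (26, 28),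
   (22, 29), (22, 30), (23, 31), (23, 32), (29, 31), (31, 30), (30, 32),
   (23, 33), (23, 34), (24, 35), (24, 36), (33, 35), (35, 34), (34, 36),
   (22, 37), (23, 37),
   (0, 38), (3, 38), (0, 39), (3, 39), (0, 40), (3, 40), (0, 41), (3, 41),
   (38, 42), (38, 43), (39, 44), (39, 45), (42, 44), (44, 43), (43, 45),
   (39, 46), (39, 47), (40, 48), (40, 49), (46, 48), (48, 47), (47, 49),
   (40, 50), (40, 51), (41, 52), (41, 53), (50, 52), (52, 51), (51, 53),
   (39, 54), (40, 54)]

/-- The adjacency matrix of the edge list `E`, as a number: bit `55 * i + j` is set if and only if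
`(i, j)` or `(j, i)` is in `E` (this is proved below). -/
def A : ℕ :=
  1889636232439547662620032862075499761866714381255187047489644069881466238193052578802010033912166091972509453498453487602234908811543829306688040576372388182970729554770447841654093512016258573247408381216394303648578634569498341447919688649171003470057653820905022582873389626895975767165143356817226478245999273568739315127451998542153938999008823730943370257169087312460188762945534326784797061437730434429582097159328209220010240559801270368593324175814090123632958855753812287162606359738082174417178306715455169615710374489809359522598801000381227786603254476045796047367278642127843340905263194130280030411563534999874078937737077920977920551447537149778848940919148667441910260514158679244471642667401395148612839069725590047365108538491640029794696277794786439326402217755958968063220194441616888704640784564177559617917953063456279460559226692801909486113856804998178998057404906217893760386203890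

/-- The first coordinates of the vertices, as the digits in base `1024`. -/
def cx : ℕ :=
  57610727501055169259901239545777601210149623289454822829613928428818221204210969184588005822604550199255408003179196472047886514028860296818595670760237592039530512

/-- The second coordinates of the vertices, as the digits in base `1024`. -/
def cy : ℕ :=
  598285946978547862582036658720328805243278243461124499925305954865894928249380233748476254698396723062782213870614908403774011458230769167454630867418735917169475600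

/-- A proper 3-colouring, as the digits in base `4`. -/
def cc : ℕ := 203619478940102085122842228184356

/-- the boolean adjacency -/
def adjB (i j : Fin 55) : Bool := Nat.testBit A (55 * i.val + j.val)

theorem adjB_symm : ∀ i j : Fin 55, adjB i j = adjB j i := by decide +kernel

theorem adjB_irrefl : ∀ i : Fin 55, adjB i i = false := by decide +kernel

/-- The graph. -/
def G : SimpleGraph (Fin 55) where
  Adj i j := adjB i j = true
  symm := ⟨fun i j h => by rw [adjB_symm]; exact h⟩
  loopless := ⟨fun i h => by rw [adjB_irrefl] at h; exact Bool.noConfusion h⟩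

theorem G_adj (i j : Fin 55) : G.Adj i j ↔ adjB i j = true := Iff.rfl

theorem E_adj : (E.all fun e => adjB e.1 e.2) = true := by decide +kernel

theorem adj_mem : ∀ i j : Fin 55, adjB i j = true → ((i, j) ∈ E ∨ (j, i) ∈ E) := by
  decide +kernel

theorem adj_iff (i j : Fin 55) : G.Adj i j ↔ ((i, j) ∈ E ∨ (j, i) ∈ E) := by
  rw [G_adj]
  refine ⟨adj_mem i j, ?_⟩
  rintro (h | h)
  · exact List.all_eq_true.mp E_adj _ h
  · rw [adjB_symm]
    exact List.all_eq_true.mp E_adj _ h

/-! ## Triangle-free -/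

theorem no_triangle' : (E.all fun e => (List.finRange 55).all fun c =>
    !(adjB e.1 c && adjB e.2 c)) = true := by
  decide +kernel

theorem no_triangle : ∀ e ∈ E, ∀ c : Fin 55, (adjB e.1 c && adjB e.2 c) = false := by
  intro e he c
  have h := List.all_eq_true.mp (List.all_eq_true.mp no_triangle' e he) c (List.mem_finRange c)
  rwa [Bool.not_eq_true'] at h

theorem cliqueFree : G.CliqueFree 3 := by
  intro s hs
  rw [SimpleGraph.is3Clique_iff] at hs
  obtain ⟨a, b, c, hab, hac, hbc, -⟩ := hs
  rw [adj_iff] at hab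
  rw [G_adj] at hac hbc
  rcases hab with h | h
  · have := no_triangle _ h c
    simp [hac, hbc] at this
  · have := no_triangle _ h c
    simp [hac, hbc] at this

/-! ## The upper bound -/

/-- the colour of a vertex -/
def co (v : Fin 55) : ℕ := cc / 4 ^ v.val % 4

theorem co_lt : ∀ v : Fin 55, co v < 3 := by decide +kernel

/-- the colouring -/
def colf (v : Fin 55) : Fin 3 := ⟨co v, co_lt v⟩

theorem col_proper' : (E.all fun e => !(Nat.beq (co e.1) (co e.2))) = true := by decide +kernel

theorem col_proper : ∀ e ∈ E, colf e.1 ≠ colf e.2 := by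
  intro e he h
  have h1 := List.all_eq_true.mp col_proper' e he
  have h2 : co e.1 = co e.2 := congrArg Fin.val h
  rw [h2] at h1
  simp at h1

theorem colf_adj {i j : Fin 55} (h : G.Adj i j) : colf i ≠ colf j := by
  rw [adj_iff] at h
  rcases h with h | h
  · exact col_proper _ h
  · exact (col_proper _ h).symm

theorem upper : ∃ f : Fin 55 → Fin 3, ∀ i, IsCograph (G.induce {v | f v = i}) := by
  refine ⟨colf, fun i => ⟨fun e => ?_⟩⟩
  have h01 : (SimpleGraph.pathGraph 4).Adj 0 1 := by
    rw [SimpleGraph.pathGraph_adj]; decide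
  have h := e.map_rel_iff.mpr h01
  have h' : G.Adj (e 0 : Fin 55) (e 1 : Fin 55) := h
  have := colf_adj h'
  apply this
  have h0 : colf (e 0 : Fin 55) = i := (e 0).2
  have h1 : colf (e 1 : Fin 55) = i := (e 1).2
  rw [h0, h1]

/-! ## The lower bound -/

/-- `p q r s` is an induced path -/
def isP4 (p q r s : Fin 55) : Bool :=
  adjB p q && adjB q r && adjB r s && !adjB p r && !adjB p s && !adjB q s

theorem no_mono {k : ℕ} {f : Fin 55 → Fin k}
    (hf : ∀ i, IsCograph (G.induce {v | f v = i})) {p q r s : Fin 55}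
    (h : isP4 p q r s = true) : ¬ (f p = f q ∧ f q = f r ∧ f r = f s) := by
  rintro ⟨e1, e2, e3⟩
  simp only [isP4, Bool.and_eq_true, Bool.not_eq_true'] at h
  obtain ⟨⟨⟨⟨⟨h1, h2⟩, h3⟩, h4⟩, h5⟩, h6⟩ := h
  have h1' : adjB q p = true := by rw [adjB_symm]; exact h1
  have h2' : adjB r q = true := by rw [adjB_symm]; exact h2
  have h3' : adjB s r = true := by rw [adjB_symm]; exact h3
  have h4' : adjB r p = false := by rw [adjB_symm]; exact h4
  have h5' : adjB s p = false := by rw [adjB_symm]; exact h5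
  have h6' : adjB s q = false := by rw [adjB_symm]; exact h6
  have hpp := adjB_irrefl p
  have hqq := adjB_irrefl q
  have hrr := adjB_irrefl r
  have hss := adjB_irrefl s
  let g : Fin 4 → {v | f v = f p} :=
    ![⟨p, rfl⟩, ⟨q, e1.symm⟩, ⟨r, by simp [e1, e2]⟩, ⟨s, by simp [e1, e2, e3]⟩]
  have hadj : ∀ i j : Fin 4, (G.induce {v | f v = f p}).Adj (g i) (g j) ↔
      (SimpleGraph.pathGraph 4).Adj i j := by
    intro i j
    rw [SimpleGraph.comap_adj, SimpleGraph.pathGraph_adj]
    fin_cases i <;> fin_cases j <;>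
      simp [g, G_adj, h1, h2, h3, h4, h5, h6, h1', h2', h3', h4', h5', h6']
  have hinj : Function.Injective g := by
    have hpq : p ≠ q := by rintro rfl; rw [h1] at hpp; exact Bool.noConfusion hpp
    have hqr : q ≠ r := by rintro rfl; rw [h2] at hqq; exact Bool.noConfusion hqq
    have hrs : r ≠ s := by rintro rfl; rw [h3] at hrr; exact Bool.noConfusion hrr
    have hpr : p ≠ r := by rintro rfl; rw [h3] at h5; exact Bool.noConfusion h5
    have hps : p ≠ s := by rintro rfl; rw [h3] at h4'; exact Bool.noConfusion h4'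
    have hqs : q ≠ s := by rintro rfl; rw [h1] at h5; exact Bool.noConfusion h5
    intro i j hij
    fin_cases i <;> fin_cases j <;>
      simp [g, hpq, hqr, hrs, hpr, hps, hqs, hpq.symm, hqr.symm, hrs.symm, hpr.symm, hps.symm,
        hqs.symm] at hij ⊢
  exact (hf (f p)).false ⟨⟨g, hinj⟩, fun {i j} => hadj i j⟩

/-- The key finite fact about the colours at two consecutive vertices `z, z'`. -/
theorem key : ∀ x y z z' a1 a2 b1 b2 : Fin 2,
    ¬ (a1 = z ∧ z = x ∧ x = z') → ¬ (a2 = z ∧ z = x ∧ x = z') →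
    ¬ (b1 = z' ∧ z' = x ∧ x = z) → ¬ (b2 = z' ∧ z' = x ∧ x = z) →
    ¬ (a1 = z ∧ z = y ∧ y = z') → ¬ (a2 = z ∧ z = y ∧ y = z') →
    ¬ (b1 = z' ∧ z' = y ∧ y = z) → ¬ (b2 = z' ∧ z' = y ∧ y = z) →
    ¬ (a1 = b1 ∧ b1 = a2 ∧ a2 = b2) → x ≠ y → z ≠ z' := by
  intro x y z z' a1 a2 b1 b2 h1 h2 h3 h4 h5 h6 h7 h8 h9 hxy hzz
  have two : ∀ c a b : Fin 2, a ≠ c → b ≠ c → a = b := by decide
  have three : ∀ x y z : Fin 2, x ≠ y → z = x ∨ z = y := by decide
  subst hzz
  rcases three x y z hxy with h | h
  · subst h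
    have A1 : a1 ≠ z := fun h => h1 ⟨h, rfl, rfl⟩
    have A2 : a2 ≠ z := fun h => h2 ⟨h, rfl, rfl⟩
    have B1 : b1 ≠ z := fun h => h3 ⟨h, rfl, rfl⟩
    have B2 : b2 ≠ z := fun h => h4 ⟨h, rfl, rfl⟩
    exact h9 ⟨two _ _ _ A1 B1, two _ _ _ B1 A2, two _ _ _ A2 B2⟩
  · subst h
    have A1 : a1 ≠ z := fun h => h5 ⟨h, rfl, rfl⟩
    have A2 : a2 ≠ z := fun h => h6 ⟨h, rfl, rfl⟩
    have B1 : b1 ≠ z := fun h => h7 ⟨h, rfl, rfl⟩
    have B2 : b2 ≠ z := fun h => h8 ⟨h, rfl, rfl⟩
    exact h9 ⟨two _ _ _ A1 B1, two _ _ _ B1 A2, two _ _ _ A2 B2⟩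

/-- The finite fact about the colours at `z₁,...,z₄` and `w`. -/
theorem key2 : ∀ x y z1 z2 z3 z4 w : Fin 2,
    z1 ≠ z2 → z2 ≠ z3 → z3 ≠ z4 →
    ¬ (w = z3 ∧ z3 = x ∧ x = z1) → ¬ (w = z2 ∧ z2 = x ∧ x = z4) →
    ¬ (w = z3 ∧ z3 = y ∧ y = z1) → ¬ (w = z2 ∧ z2 = y ∧ y = z4) → x = y := by
  decide +kernel

/-- `x, y, z, z', a₁, a₂, b₁, b₂` are in the position of the gadget. -/
def linkB (x y z z' a1 a2 b1 b2 : Fin 55) : Bool :=
  isP4 a1 z x z' && isP4 a2 z x z' && isP4 b1 z' x z && isP4 b2 z' x z &&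
  isP4 a1 z y z' && isP4 a2 z y z' && isP4 b1 z' y z && isP4 b2 z' y z &&
  isP4 a1 b1 a2 b2

theorem link {f : Fin 55 → Fin 2}
    (hf : ∀ i, IsCograph (G.induce {v | f v = i})) {x y z z' a1 a2 b1 b2 : Fin 55}
    (h : linkB x y z z' a1 a2 b1 b2 = true) (hxy : f x ≠ f y) : f z ≠ f z' := by
  simp only [linkB, Bool.and_eq_true] at h
  obtain ⟨⟨⟨⟨⟨⟨⟨⟨c1, c2⟩, c3⟩, c4⟩, c5⟩, c6⟩, c7⟩, c8⟩, c9⟩ := h
  exact key (f x) (f y) (f z) (f z') (f a1) (f a2) (f b1) (f b2) (no_mono hf c1) (no_mono hf c2)
    (no_mono hf c3) (no_mono hf c4) (no_mono hf c5) (no_mono hf c6) (no_mono hf c7)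
    (no_mono hf c8) (no_mono hf c9) hxy

/-- the vertices of a gadget with base `b` -/
def gadB (x y z1 z2 z3 z4 w : Fin 55) : Bool :=
  isP4 w z3 x z1 && isP4 w z2 x z4 && isP4 w z3 y z1 && isP4 w z2 y z4

theorem gadget {f : Fin 55 → Fin 2}
    (hf : ∀ i, IsCograph (G.induce {v | f v = i}))
    {x y z1 z2 z3 z4 w a1 a2 b1 b2 c1 c2 d1 d2 e1 e2 g1 g2 : Fin 55}
    (h1 : linkB x y z1 z2 a1 a2 b1 b2 = true) (h2 : linkB x y z2 z3 c1 c2 d1 d2 = true)
    (h3 : linkB x y z3 z4 e1 e2 g1 g2 = true) (h4 : gadB x y z1 z2 z3 z4 w = true) :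
    f x = f y := by
  by_contra hxy
  simp only [gadB, Bool.and_eq_true] at h4
  obtain ⟨⟨⟨k1, k2⟩, k3⟩, k4⟩ := h4
  exact hxy (key2 (f x) (f y) (f z1) (f z2) (f z3) (f z4) (f w) (link hf h1 hxy) (link hf h2 hxy)
    (link hf h3 hxy) (no_mono hf k1) (no_mono hf k2) (no_mono hf k3) (no_mono hf k4))

theorem not_two (f : Fin 55 → Fin 2) : ¬ ∀ i, IsCograph (G.induce {v | f v = i}) := by
  intro hf
  have h1 : f 0 = f 2 := gadget hf (x := 0) (y := 2) (z1 := 4) (z2 := 5) (z3 := 6) (z4 := 7)
    (w := 20) (a1 := 8) (a2 := 9) (b1 := 10) (b2 := 11) (c1 := 12) (c2 := 13) (d1 := 14)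
    (d2 := 15) (e1 := 16) (e2 := 17) (g1 := 18) (g2 := 19)
    (by decide +kernel) (by decide +kernel) (by decide +kernel) (by decide +kernel)
  have h2 : f 1 = f 3 := gadget hf (x := 1) (y := 3) (z1 := 21) (z2 := 22) (z3 := 23) (z4 := 24)
    (w := 37) (a1 := 25) (a2 := 26) (b1 := 27) (b2 := 28) (c1 := 29) (c2 := 30) (d1 := 31)
    (d2 := 32) (e1 := 33) (e2 := 34) (g1 := 35) (g2 := 36)
    (by decide +kernel) (by decide +kernel) (by decide +kernel) (by decide +kernel)
  have h3 : f 0 = f 3 := gadget hf (x := 0) (y := 3) (z1 := 38) (z2 := 39) (z3 := 40) (z4 := 41)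
    (w := 54) (a1 := 42) (a2 := 43) (b1 := 44) (b2 := 45) (c1 := 46) (c2 := 47) (d1 := 48)
    (d2 := 49) (e1 := 50) (e2 := 51) (g1 := 52) (g2 := 53)
    (by decide +kernel) (by decide +kernel) (by decide +kernel) (by decide +kernel)
  have hp : isP4 0 1 2 3 = true := by decide +kernel
  refine no_mono hf hp ⟨?_, ?_, ?_⟩
  · rw [h3, h2]
  · rw [h2, ← h3, h1]
  · rw [← h1, h3]

theorem not_le_two {k : ℕ} (hk : k ≤ 2) (f : Fin 55 → Fin k)
    (hf : ∀ i, IsCograph (G.induce {v | f v = i})) : False := by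
  refine not_two (fun v => Fin.castLE hk (f v)) (fun i => ⟨fun e => ?_⟩)
  -- all values on the image are equal to `i`
  have hi : (Fin.castLE hk (f (e 0 : Fin 55))) = i := (e 0).2
  let i0 : Fin k := f (e 0 : Fin 55)
  have hall : ∀ t : Fin 4, f (e t : Fin 55) = i0 := by
    intro t
    have ht : Fin.castLE hk (f (e t : Fin 55)) = i := (e t).2
    exact Fin.castLE_injective hk (ht.trans hi.symm)
  refine (hf i0).false ⟨⟨fun t => ⟨(e t : Fin 55), hall t⟩, ?_⟩, ?_⟩
  · intro s t hst
    have h' := congrArg Subtype.val hst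
    exact e.injective (Subtype.ext h')
  · intro s t
    exact e.map_rel_iff

theorem cChromatic_eq : cChromatic G = 3 := by
  unfold cChromatic
  apply le_antisymm
  · exact Nat.sInf_le upper
  · refine le_csInf ⟨3, upper⟩ ?_
    rintro k ⟨f, hf⟩
    by_contra hk
    exact not_le_two (by omega) f hf

/-! ## The drawing -/

/-- first coordinate of a vertex -/
def xn (i : Fin 55) : ℕ := cx / 1024 ^ i.val % 1024

/-- second coordinate of a vertex -/
def yn (i : Fin 55) : ℕ := cy / 1024 ^ i.val % 1024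

/-- the positive part of the orientation determinant -/
def pos (u v w : Fin 55) : ℕ := xn v * yn w + yn v * xn u + yn u * xn w

/-- the negative part of the orientation determinant -/
def neg (u v w : Fin 55) : ℕ := xn v * yn u + xn u * yn w + yn v * xn w

/-- the condition checked for two edges -/
def okPair (e f : Fin 55 × Fin 55) : Bool :=
  let U := e.1
  let V := e.2
  let X := f.1
  let Y := f.2
  (Nat.blt (neg U V X) (pos U V X) && Nat.blt (neg U V Y) (pos U V Y)) ||
  (Nat.blt (pos U V X) (neg U V X) && Nat.blt (pos U V Y) (neg U V Y)) ||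
  (Nat.blt (neg X Y U) (pos X Y U) && Nat.blt (neg X Y V) (pos X Y V)) ||
  (Nat.blt (pos X Y U) (neg X Y U) && Nat.blt (pos X Y V) (neg X Y V)) ||
  (U == X && (V == Y || !(Nat.beq (neg U V Y) (pos U V Y)))) ||
  (U == Y && (V == X || !(Nat.beq (neg U V X) (pos U V X)))) ||
  (V == X && (U == Y || !(Nat.beq (neg V U Y) (pos V U Y)))) ||
  (V == Y && (U == X || !(Nat.beq (neg V U X) (pos V U X))))

theorem okPair_all' : (E.all fun e => E.all fun f => okPair e f) = true := by
  decide +kernel

theorem okPair_all : ∀ e ∈ E, ∀ f ∈ E, okPair e f = true := by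
  intro e he f hf
  exact List.all_eq_true.mp (List.all_eq_true.mp okPair_all' e he) f hf

theorem pt_inj : ∀ u v : Fin 55, (xn u = xn v ∧ yn u = yn v) → u = v := by decide +kernel

theorem no_isolated : ∀ u : Fin 55, ∃ v : Fin 55, adjB u v = true := by decide +kernel

/-- the orientation determinant over the reals -/
noncomputable def detR (a b c : ℝ × ℝ) : ℝ :=
  (b.1 - a.1) * (c.2 - a.2) - (b.2 - a.2) * (c.1 - a.1)

/-- the placement of the vertices -/
noncomputable def pl (v : Fin 55) : ℝ × ℝ := ((xn v : ℝ), (yn v : ℝ))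

theorem detR_pl (u v w : Fin 55) :
    detR (pl u) (pl v) (pl w) = (pos u v w : ℝ) - (neg u v w : ℝ) := by
  unfold detR pl pos neg
  push_cast
  ring

theorem mem_seg {a b q : ℝ × ℝ} (h : q ∈ segment ℝ a b) :
    ∃ t : ℝ, 0 ≤ t ∧ t ≤ 1 ∧ q.1 = a.1 + t * (b.1 - a.1) ∧ q.2 = a.2 + t * (b.2 - a.2) := by
  obtain ⟨s, t, hs, ht, hst, rfl⟩ := h
  refine ⟨t, ht, by linarith, ?_, ?_⟩
  · have : s = 1 - t := by linarith
    simp only [this, Prod.fst_add, Prod.smul_fst, smul_eq_mul]
    ring
  · have : s = 1 - t := by linarith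
    simp only [this, Prod.snd_add, Prod.smul_snd, smul_eq_mul]
    ring

/-- if `x` and `y` are strictly on the same side of the line `uv`, the segments are disjoint -/
theorem seg_disj {u v x y q : ℝ × ℝ} (h : 0 < detR u v x * detR u v y)
    (h1 : q ∈ segment ℝ u v) (h2 : q ∈ segment ℝ x y) : False := by
  obtain ⟨t, -, -, e1, e2⟩ := mem_seg h1
  obtain ⟨s, hs0, hs1, e3, e4⟩ := mem_seg h2
  have hq : detR u v q = 0 := by
    unfold detR
    rw [e1, e2]
    ring
  have hq' : detR u v q = (1 - s) * detR u v x + s * detR u v y := by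
    unfold detR
    rw [e3, e4]
    ring
  rw [hq] at hq'
  rcases pos_and_pos_or_neg_and_neg_of_mul_pos h with ⟨hx, hy⟩ | ⟨hx, hy⟩
  · have k1 := mul_nonneg (sub_nonneg.mpr hs1) (sub_nonneg.mpr (min_le_left (detR u v x) (detR u v y)))
    have k2 := mul_nonneg hs0 (sub_nonneg.mpr (min_le_right (detR u v x) (detR u v y)))
    have k3 : 0 < min (detR u v x) (detR u v y) := lt_min hx hy
    nlinarith
  · have k1 := mul_nonneg (sub_nonneg.mpr hs1) (sub_nonneg.mpr (le_max_left (detR u v x) (detR u v y)))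
    have k2 := mul_nonneg hs0 (sub_nonneg.mpr (le_max_right (detR u v x) (detR u v y)))
    have k3 : max (detR u v x) (detR u v y) < 0 := max_lt hx hy
    nlinarith

/-- two non-collinear segments with a common endpoint only meet there -/
theorem seg_common {a b c q : ℝ × ℝ} (h : detR a b c ≠ 0)
    (h1 : q ∈ segment ℝ a b) (h2 : q ∈ segment ℝ a c) : q = a := by
  obtain ⟨t, -, -, e1, e2⟩ := mem_seg h1
  obtain ⟨s, -, -, e3, e4⟩ := mem_seg h2
  have h3 : t * detR a b c = 0 := by
    have k1 : t * (b.1 - a.1) = s * (c.1 - a.1) := by linarith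
    have k2 : t * (b.2 - a.2) = s * (c.2 - a.2) := by linarith
    unfold detR
    have : t * ((b.1 - a.1) * (c.2 - a.2) - (b.2 - a.2) * (c.1 - a.1)) =
        (t * (b.1 - a.1)) * (c.2 - a.2) - (t * (b.2 - a.2)) * (c.1 - a.1) := by ring
    rw [this, k1, k2]
    ring
  have ht : t = 0 := by
    rcases mul_eq_zero.mp h3 with h | h'
    · exact h
    · exact absurd h' h
  rw [ht] at e1 e2
  apply Prod.ext
  · rw [e1]; ring
  · rw [e2]; ring

theorem pl_inj : Function.Injective pl := by
  intro u v h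
  unfold pl at h
  have h1 := congrArg Prod.fst h
  have h2 := congrArg Prod.snd h
  simp only [Nat.cast_inj] at h1 h2
  exact pt_inj u v ⟨h1, h2⟩

theorem detR_ne {u v w : Fin 55} (hb : Nat.beq (neg u v w) (pos u v w) = false) :
    detR (pl u) (pl v) (pl w) ≠ 0 := by
  have h : neg u v w ≠ pos u v w := Nat.ne_of_beq_eq_false hb
  rw [detR_pl]
  intro h'
  apply h
  have : (pos u v w : ℝ) = (neg u v w : ℝ) := by linarith
  exact_mod_cast this.symm

theorem detR_pos {u v w z : Fin 55}
    (h : neg u v w < pos u v w) (h' : neg u v z < pos u v z) :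
    0 < detR (pl u) (pl v) (pl w) * detR (pl u) (pl v) (pl z) := by
  rw [detR_pl, detR_pl]
  have h1 : (neg u v w : ℝ) < (pos u v w : ℝ) := by exact_mod_cast h
  have h2 : (neg u v z : ℝ) < (pos u v z : ℝ) := by exact_mod_cast h'
  exact mul_pos (by linarith) (by linarith)

theorem detR_pos' {u v w z : Fin 55}
    (h : pos u v w < neg u v w) (h' : pos u v z < neg u v z) :
    0 < detR (pl u) (pl v) (pl w) * detR (pl u) (pl v) (pl z) := by
  rw [detR_pl, detR_pl]
  have h1 : (pos u v w : ℝ) < (neg u v w : ℝ) := by exact_mod_cast h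
  have h2 : (pos u v z : ℝ) < (neg u v z : ℝ) := by exact_mod_cast h'
  exact mul_pos_of_neg_of_neg (by linarith) (by linarith)

theorem meet_of_ok {u v x y : Fin 55} (h : okPair (u, v) (x, y) = true) (hne : s(u, v) ≠ s(x, y))
    {q : ℝ × ℝ} (h1 : q ∈ segment ℝ (pl u) (pl v)) (h2 : q ∈ segment ℝ (pl x) (pl y)) :
    ∃ w, (w = u ∨ w = v) ∧ (w = x ∨ w = y) ∧ q = pl w := by
  have h1' : q ∈ segment ℝ (pl v) (pl u) := by rw [segment_symm]; exact h1
  have h2' : q ∈ segment ℝ (pl y) (pl x) := by rw [segment_symm]; exact h2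
  simp only [okPair, Bool.or_eq_true, Bool.and_eq_true, beq_iff_eq, Nat.blt_eq,
    Bool.not_eq_true'] at h
  rcases h with ((((((h | h) | h) | h) | h) | h) | h) | h
  · exact (seg_disj (detR_pos h.1 h.2) h1 h2).elim
  · exact (seg_disj (detR_pos' h.1 h.2) h1 h2).elim
  · exact (seg_disj (detR_pos h.1 h.2) h2 h1).elim
  · exact (seg_disj (detR_pos' h.1 h.2) h2 h1).elim
  · obtain ⟨rfl, h | h⟩ := h
    · exact absurd (by rw [h]) hne
    · exact ⟨u, Or.inl rfl, Or.inl rfl, seg_common (detR_ne h) h1 h2⟩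
  · obtain ⟨rfl, h | h⟩ := h
    · exact absurd (by rw [h, Sym2.eq_swap]) hne
    · exact ⟨u, Or.inl rfl, Or.inr rfl, seg_common (detR_ne h) h1 h2'⟩
  · obtain ⟨rfl, h | h⟩ := h
    · exact absurd (by rw [h, Sym2.eq_swap]) hne
    · exact ⟨v, Or.inr rfl, Or.inl rfl, seg_common (detR_ne h) h1' h2⟩
  · obtain ⟨rfl, h | h⟩ := h
    · exact absurd (by rw [h]) hne
    · exact ⟨v, Or.inr rfl, Or.inr rfl, seg_common (detR_ne h) h1' h2'⟩

theorem meet {u v x y : Fin 55} (huv : G.Adj u v) (hxy : G.Adj x y) (hne : s(u, v) ≠ s(x, y))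
    {q : ℝ × ℝ} (h1 : q ∈ segment ℝ (pl u) (pl v)) (h2 : q ∈ segment ℝ (pl x) (pl y)) :
    ∃ w, (w = u ∨ w = v) ∧ (w = x ∨ w = y) ∧ q = pl w := by
  rw [adj_iff] at huv hxy
  have h1' : q ∈ segment ℝ (pl v) (pl u) := by rw [segment_symm]; exact h1
  have h2' : q ∈ segment ℝ (pl y) (pl x) := by rw [segment_symm]; exact h2
  have e1 : s(u, v) = s(v, u) := Sym2.eq_swap
  have e2 : s(x, y) = s(y, x) := Sym2.eq_swap
  rcases huv with huv | huv <;> rcases hxy with hxy | hxy
  · exact meet_of_ok (okPair_all _ huv _ hxy) hne h1 h2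
  · obtain ⟨w, hw1, hw2, hw3⟩ := meet_of_ok (okPair_all _ huv _ hxy) (by rw [← e2]; exact hne) h1 h2'
    exact ⟨w, hw1, hw2.symm, hw3⟩
  · obtain ⟨w, hw1, hw2, hw3⟩ := meet_of_ok (okPair_all _ huv _ hxy) (by rw [← e1]; exact hne) h1' h2
    exact ⟨w, hw1.symm, hw2, hw3⟩
  · obtain ⟨w, hw1, hw2, hw3⟩ := meet_of_ok (okPair_all _ huv _ hxy)
      (by rw [← e1, ← e2]; exact hne) h1' h2'
    exact ⟨w, hw1.symm, hw2.symm, hw3⟩

theorem hasPlaneDrawing : HasPlaneDrawing G := by
  refine ⟨pl, pl_inj, ?_, fun u v x y huv hxy hne q h1 h2 => meet huv hxy hne h1 h2⟩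
  intro u v w huv hw
  obtain ⟨w', hww'⟩ := no_isolated w
  by_cases hs : s(u, v) = s(w, w')
  · rw [Sym2.eq_iff] at hs
    rcases hs with ⟨h, -⟩ | ⟨-, h⟩
    · exact Or.inl h.symm
    · exact Or.inr h.symm
  · obtain ⟨w0, hw1, hw2, hw3⟩ := meet huv hww' hs hw (left_mem_segment ℝ _ _)
    have : w = w0 := pl_inj hw3
    rw [this]
    exact hw1

/-- **MP_b5aa49_co, Q1: yes.**  There is a planar triangle-free graph (on `55` vertices, with a
plane drawing with straight edges) whose c-chromatic number is three. -/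
theorem result : ∃ G : SimpleGraph (Fin 55),
    HasPlaneDrawing G ∧ G.CliqueFree 3 ∧ cChromatic G = 3 :=
  ⟨G, hasPlaneDrawing, cliqueFree, cChromatic_eq⟩

end Pool.Agent.Results.MP_b5aa49_co.PlanarTriangleFreeThree
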