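import Mathlib

/-!
# Reduction sequences and reduced bandwidth

A reduction (contraction) sequence of a graph `G` is given by the partitions of the vertex set: the
vertices of the trigraph after `i` contractions are the classes of `p i`, two classes are joined by
a black edge if they are complete to each other, are not joined if there is no edge between them, and
are joined by a red edge otherwise.
-/

set_option autoImplicit false

namespace Pool.Agent.Q277.RB

/-- `s'` is obtained from the partition `s` by merging two classes -/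
def Merges {V : Type} (s s' : Setoid V) : Prop :=
  ∃ u v, ¬ s.r u v ∧ ∀ x y, s'.r x y ↔
    (s.r x y ∨ (s.r x u ∧ s.r y v) ∨ (s.r x v ∧ s.r y u))

/-- a reduction sequence: from the partition into singletons to the partition with one class,
each time merging two classes -/
def IsReduction {V : Type} (N : ℕ) (p : ℕ → Setoid V) : Prop :=
  p 0 = ⊥ ∧ p N = ⊤ ∧ ∀ i < N, Merges (p i) (p (i + 1))

/-- the red graph of the trigraph given by a partition: two distinct classes are joined by a red edge
iff there are an edge and a non-edge between them -/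
def redGraph {V : Type} (G : SimpleGraph V) (s : Setoid V) : SimpleGraph (Quotient s) where
  Adj P Q := P ≠ Q ∧ (∃ x y, Quotient.mk s x = P ∧ Quotient.mk s y = Q ∧ G.Adj x y) ∧
    ∃ x y, Quotient.mk s x = P ∧ Quotient.mk s y = Q ∧ ¬ G.Adj x y
  symm := ⟨by
    rintro P Q ⟨h, ⟨x, y, hx, hy, h1⟩, ⟨x', y', hx', hy', h2⟩⟩
    exact ⟨h.symm, ⟨y, x, hy, hx, h1.symm⟩, ⟨y', x', hy', hx', fun h => h2 h.symm⟩⟩⟩
  loopless := ⟨fun P h => h.1 rfl⟩

/-- the bandwidth of `H` is at most `k` -/
def BandwidthLE {W : Type} (H : SimpleGraph W) (k : ℕ) : Prop :=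
  ∃ σ : W ≃ Fin (Nat.card W), ∀ u v, H.Adj u v →
    ((σ u : ℕ) : ℤ) - ((σ v : ℕ) : ℤ) ≤ k

/-- the reduced bandwidth of `G` is at most `k` -/
def ReducedBandwidthLE {V : Type} (G : SimpleGraph V) (k : ℕ) : Prop :=
  ∃ (N : ℕ) (p : ℕ → Setoid V), IsReduction N p ∧ ∀ i ≤ N, BandwidthLE (redGraph G (p i)) k

theorem BandwidthLE.abs {W : Type} {H : SimpleGraph W} {k : ℕ} (h : BandwidthLE H k) :
    ∃ σ : W → ℤ, Function.Injective σ ∧ ∀ u v, H.Adj u v → |σ u - σ v| ≤ k := by
  obtain ⟨σ, hσ⟩ := h
  refine ⟨fun u => ((σ u : ℕ) : ℤ), ?_, ?_⟩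
  · intro u v huv
    apply σ.injective
    apply Fin.ext
    have h : ((σ u : ℕ) : ℤ) = ((σ v : ℕ) : ℤ) := huv
    exact_mod_cast h
  · intro u v huv
    rw [abs_le]
    have h1 := hσ u v huv
    have h2 := hσ v u huv.symm
    constructor <;> linarith

/-- the elements of a finite set of classes that are `σ`-close to a given one are few -/
theorem card_close {W : Type} (σ : W → ℤ) (hσ : Function.Injective σ) (P : W) (a : ℕ) :
    {Q | |σ Q - σ P| ≤ a}.Finite ∧ {Q | |σ Q - σ P| ≤ a}.ncard ≤ 2 * a + 1 := by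
  have hmaps : Set.MapsTo σ {Q | |σ Q - σ P| ≤ a} (Set.Icc (σ P - a) (σ P + a)) := by
    intro Q hQ
    rw [Set.mem_ofPred_eq, abs_le] at hQ
    constructor <;> linarith [hQ.1, hQ.2]
  have hfin : {Q | |σ Q - σ P| ≤ a}.Finite :=
    Set.Finite.of_injOn hmaps hσ.injOn (Set.finite_Icc _ _)
  refine ⟨hfin, ?_⟩
  have h1 := Set.ncard_le_ncard_of_injOn σ hmaps hσ.injOn (Set.finite_Icc _ _)
  refine h1.trans ?_
  have : (Set.Icc (σ P - a) (σ P + a)).ncard = 2 * a + 1 := by
    rw [← Finset.coe_Icc, Set.ncard_coe_finset, Int.card_Icc]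
    have : σ P + a + 1 - (σ P - a) = ((2 * a + 1 : ℕ) : ℤ) := by push_cast; ring
    rw [this, Int.toNat_natCast]
  rw [this]

end Pool.Agent.Q277.RB
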