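import Pool.Agent.Q277.RB

/-!
# Sparse graphs of bounded reduced bandwidth have linear expansion

Let `S` be a model of an `r`-shallow minor `H` in `G`. Consider the first time some ball of radius
`2 (2 r + 1)` in the red graph meets more than `z = O(r)` branch sets. Then no such ball meets more
than `O(z)` branch sets. There are only `O(r)` classes within red distance `3 (2 r + 1)` of the centre
`P` of the ball. The vertices in the small ones of these classes, and the vertices that are complete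
to one of the big ones, form a set `Z` of at most `z` vertices. A branch set meeting the ball but not
`Z` has `O(z)` neighbouring branch sets.
-/

set_option autoImplicit false
set_option linter.unusedSectionVars false

namespace Pool.Agent.Q277.RBLin

open Pool.Agent.Q277.RB Finset

/-- `S` is a model of `H` in `G` of depth `r`: pairwise disjoint vertex sets, connected and of radius
at most `r`, joined by edges as prescribed by `H` -/
structure IsModel {V W : Type} (G : SimpleGraph V) (r : ℕ) (H : SimpleGraph W)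
    (S : W → Set V) : Prop where
  disj : ∀ a b, a ≠ b → Disjoint (S a) (S b)
  rad : ∀ a, ∃ c ∈ S a, ∀ x ∈ S a, ∃ w : G.Walk c x, w.length ≤ r ∧ ∀ y ∈ w.support, y ∈ S a
  adj : ∀ a b, H.Adj a b → ∃ x ∈ S a, ∃ y ∈ S b, G.Adj x y

/-- `H` is an `r`-shallow minor of `G` -/
def IsShallowMinor {V W : Type} (r : ℕ) (H : SimpleGraph W) (G : SimpleGraph V) : Prop :=
  ∃ S : W → Set V, IsModel G r H S

section Near

variable {W : Type} (H : SimpleGraph W)

/-- `Q` can be reached from `P` in at most `j` steps -/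
def near : ℕ → W → W → Prop
  | 0, P, Q => P = Q
  | j + 1, P, Q => ∃ Q', near j P Q' ∧ (Q' = Q ∨ H.Adj Q' Q)

variable {H}

theorem near_succ {j : ℕ} {P Q Q' : W} (h : near H j P Q) (h' : Q = Q' ∨ H.Adj Q Q') :
    near H (j + 1) P Q' := ⟨Q, h, h'⟩

theorem near_mono {j j' : ℕ} (hj : j ≤ j') {P Q : W} (h : near H j P Q) : near H j' P Q := by
  induction hj with
  | refl => exact h
  | step _ ih => exact near_succ ih (Or.inl rfl)

theorem near_trans {a b : ℕ} {P Q T : W} (h : near H a P Q) (h' : near H b Q T) :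
    near H (a + b) P T := by
  induction b generalizing T with
  | zero => obtain rfl : Q = T := h'; exact h
  | succ b ih =>
    obtain ⟨Q', h1, h2⟩ := h'
    exact near_succ (ih h1) h2

theorem near_split {a b : ℕ} {P T : W} (h : near H (a + b) P T) :
    ∃ Q, near H a P Q ∧ near H b Q T := by
  induction b generalizing T with
  | zero => exact ⟨T, h, rfl⟩
  | succ b ih =>
    obtain ⟨Q', h1, h2⟩ := h
    obtain ⟨Q, h3, h4⟩ := ih h1
    exact ⟨Q, h3, near_succ h4 h2⟩

theorem near_close {σ : W → ℤ} {k : ℕ} (hk : ∀ u v, H.Adj u v → |σ u - σ v| ≤ k) {j : ℕ}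
    {P Q : W} (h : near H j P Q) : |σ Q - σ P| ≤ ((k * j : ℕ) : ℤ) := by
  induction j generalizing Q with
  | zero => obtain rfl : P = Q := h; simp
  | succ j ih =>
    obtain ⟨Q', h1, h2⟩ := h
    have h3 := ih h1
    rcases h2 with rfl | h2
    · refine h3.trans ?_
      exact_mod_cast Nat.mul_le_mul_left k (Nat.le_succ j)
    · have h4 := hk _ _ h2.symm
      have h5 : |σ Q - σ P| ≤ |σ Q - σ Q'| + |σ Q' - σ P| := abs_sub_le _ _ _
      have h6 : ((k * (j + 1) : ℕ) : ℤ) = (k : ℤ) + ((k * j : ℕ) : ℤ) := by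
        push_cast; ring
      rw [h6]
      linarith

/-- a ball of radius `3 ρ` is covered by few balls of radius `2 ρ` -/
theorem cover {σ : W → ℤ} (hσ : Function.Injective σ) {k : ℕ}
    (hk : ∀ u v, H.Adj u v → |σ u - σ v| ≤ k) (P : W) (ρ : ℕ) (hρ : 1 ≤ ρ) :
    ∃ T : Finset W, T.card ≤ 4 * k + 2 ∧ ∀ Q, near H (3 * ρ) P Q → ∃ P' ∈ T, near H (2 * ρ) P' Q := by
  classical
  obtain ⟨hfin, hcard⟩ := card_close σ hσ P (k * (2 * ρ))
  rw [Set.ncard_eq_toFinset_card _ hfin] at hcard
  set B : Finset W := hfin.toFinset with hB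
  have memB : ∀ j Q, j ≤ 2 * ρ → near H j P Q → Q ∈ B := by
    intro j Q hj hQ
    rw [hB, Set.Finite.mem_toFinset]
    exact near_close hk (near_mono hj hQ)
  let sph : ℕ → Finset W := fun j => B.filter (fun Q => near H j P Q ∧ ¬ near H (j - 1) P Q)
  have hex : ∃ j ∈ Finset.Icc (ρ + 1) (2 * ρ), (sph j).card ≤ 4 * k + 1 := by
    by_contra hcon
    push Not at hcon
    have hdisj : ((Finset.Icc (ρ + 1) (2 * ρ) : Finset ℕ) : Set ℕ).PairwiseDisjoint sph := by
      intro a ha b hb hab
      rw [Function.onFun, Finset.disjoint_left]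
      intro Q hQ hQ'
      simp only [sph, Finset.mem_filter] at hQ hQ'
      rcases lt_or_gt_of_ne hab with h | h
      · exact hQ'.2.2 (near_mono (by omega) hQ.2.1)
      · exact hQ.2.2 (near_mono (by omega) hQ'.2.1)
    have h1 : ((Finset.Icc (ρ + 1) (2 * ρ)).biUnion sph).card ≤ B.card := by
      apply Finset.card_le_card
      intro Q hQ
      rw [Finset.mem_biUnion] at hQ
      obtain ⟨j, -, hQ⟩ := hQ
      exact (Finset.mem_filter.1 hQ).1
    rw [Finset.card_biUnion hdisj] at h1
    have h2 : ∑ j ∈ Finset.Icc (ρ + 1) (2 * ρ), (4 * k + 2) ≤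
        ∑ j ∈ Finset.Icc (ρ + 1) (2 * ρ), (sph j).card :=
      Finset.sum_le_sum (fun j hj => hcon j hj)
    rw [Finset.sum_const, Nat.card_Icc, smul_eq_mul] at h2
    have h3 : (2 * ρ + 1 - (ρ + 1)) * (4 * k + 2) = 2 * (k * (2 * ρ)) + 2 * ρ := by
      rw [show 2 * ρ + 1 - (ρ + 1) = ρ by omega]; ring
    omega
  obtain ⟨j, hj, hjc⟩ := hex
  rw [Finset.mem_Icc] at hj
  refine ⟨insert P (sph j), (Finset.card_insert_le _ _).trans (by omega), ?_⟩
  intro Q hQ
  have hexd : ∃ d, near H d P Q := ⟨_, hQ⟩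
  obtain ⟨d, hd⟩ : ∃ d, d = Nat.find hexd := ⟨_, rfl⟩
  have hdn : near H d P Q := by rw [hd]; exact Nat.find_spec hexd
  have hdmin : ∀ m, near H m P Q → d ≤ m := fun m hm => by rw [hd]; exact Nat.find_min' hexd hm
  have hd3 : d ≤ 3 * ρ := hdmin _ hQ
  by_cases hd2 : d ≤ 2 * ρ
  · exact ⟨P, Finset.mem_insert_self _ _, near_mono hd2 hdn⟩
  · have hsplit : near H (j + (d - j)) P Q := by
      rw [show j + (d - j) = d by omega]; exact hdn
    obtain ⟨Q', h1, h2⟩ := near_split hsplit
    refine ⟨Q', Finset.mem_insert_of_mem (Finset.mem_filter.2 ⟨memB j Q' hj.2 h1, h1, ?_⟩),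
      near_mono (by omega) h2⟩
    intro h3
    have h4 := hdmin _ (near_trans h3 h2)
    omega

end Near

section Core

variable {V W : Type} [Fintype V] [Fintype W]

open Classical in
/-- branch sets in `U` meeting the ball of radius `R` around the class of `x` -/
noncomputable def hits (G : SimpleGraph V) (S : W → Set V) (U : Finset W) (s : Setoid V) (R : ℕ)
    (x : V) : Finset W :=
  U.filter (fun h => ∃ y ∈ S h, near (redGraph G s) R (Quotient.mk s x) (Quotient.mk s y))

theorem mem_hits (G : SimpleGraph V) (S : W → Set V) (U : Finset W) (s : Setoid V) (R : ℕ) (x : V)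
    (h : W) : h ∈ hits G S U s R x ↔
      h ∈ U ∧ ∃ y ∈ S h, near (redGraph G s) R (Quotient.mk s x) (Quotient.mk s y) := by
  simp [hits]

/-- few branch sets meet a small set -/
theorem card_meet (S : W → Set V) (hdis : ∀ a b, a ≠ b → Disjoint (S a) (S b)) (J : Finset W)
    (Z : Finset V) (h : ∀ a ∈ J, ∃ x ∈ Z, x ∈ S a) : J.card ≤ Z.card := by
  classical
  rcases isEmpty_or_nonempty V with hV | hV
  · have : J = ∅ := by
      rw [Finset.eq_empty_iff_forall_notMem]
      intro a ha
      obtain ⟨x, -, -⟩ := h a ha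
      exact hV.elim x
    rw [this]; simp
  choose! f hf using h
  apply Finset.card_le_card_of_injOn f
  · intro a ha
    exact (hf a ha).1
  · intro a ha b hb hab
    by_contra hne
    have h1 := (hf a ha).2
    have h2 := (hf b hb).2
    rw [hab] at h1
    exact Set.disjoint_left.1 (hdis a b hne) h1 h2

/-- how balls change when two classes are merged -/
theorem near_merge (G : SimpleGraph V) (s s' : Setoid V) (u v : V)
    (hm : ∀ x y, s'.r x y ↔ (s.r x y ∨ (s.r x u ∧ s.r y v) ∨ (s.r x v ∧ s.r y u)))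
    (j : ℕ) (x y : V) (h : near (redGraph G s') j (Quotient.mk s' x) (Quotient.mk s' y)) :
    near (redGraph G s) j (Quotient.mk s x) (Quotient.mk s y) ∨ s.r u y ∨ s.r v y ∨
      ∃ b, (redGraph G s').Adj (Quotient.mk s' u) (Quotient.mk s' b) ∧
        near (redGraph G s) j (Quotient.mk s b) (Quotient.mk s y) := by
  have huv : s'.r u v := (hm u v).2 (Or.inr (Or.inl ⟨s.refl u, s.refl v⟩))
  -- the merged class
  have hC : ∀ y, s'.r u y ↔ (s.r u y ∨ s.r v y) := by
    intro y
    rw [hm]
    constructor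
    · rintro (h | ⟨-, h⟩ | ⟨-, h⟩)
      · exact Or.inl h
      · exact Or.inr (s.symm h)
      · exact Or.inl (s.symm h)
    · rintro (h | h)
      · exact Or.inl h
      · exact Or.inr (Or.inl ⟨s.refl u, s.symm h⟩)
  -- the other classes
  have hother : ∀ y, ¬ s'.r u y → ∀ a, s'.r y a ↔ s.r y a := by
    intro y hy a
    rw [hC] at hy
    push Not at hy
    rw [hm]
    constructor
    · rintro (h | ⟨h, -⟩ | ⟨h, -⟩)
      · exact h
      · exact absurd (s.symm h) hy.1
      · exact absurd (s.symm h) hy.2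
    · exact Or.inl
  have hadj : ∀ y y', ¬ s'.r u y → ¬ s'.r u y' →
      (redGraph G s').Adj (Quotient.mk s' y) (Quotient.mk s' y') →
      (redGraph G s).Adj (Quotient.mk s y) (Quotient.mk s y') := by
    intro y y' hy hy' h
    obtain ⟨hne, ⟨a, b, ha, hb, hab⟩, ⟨c, d, hc, hd, hcd⟩⟩ := h
    have e1 : ∀ a, Quotient.mk s' a = Quotient.mk s' y → Quotient.mk s a = Quotient.mk s y := by
      intro a ha
      exact Quotient.sound (s.symm ((hother y hy a).1 (s'.symm (Quotient.exact ha))))
    have e2 : ∀ a, Quotient.mk s' a = Quotient.mk s' y' → Quotient.mk s a = Quotient.mk s y' := by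
      intro a ha
      exact Quotient.sound (s.symm ((hother y' hy' a).1 (s'.symm (Quotient.exact ha))))
    refine ⟨?_, ⟨a, b, e1 a ha, e2 b hb, hab⟩, ⟨c, d, e1 c hc, e2 d hd, hcd⟩⟩
    intro h
    apply hne
    exact Quotient.sound ((hother y hy y').2 (Quotient.exact h))
  induction j generalizing y with
  | zero =>
    have h1 : s'.r x y := Quotient.exact h
    rcases (hm x y).1 h1 with h | ⟨-, h⟩ | ⟨-, h⟩
    · exact Or.inl (Quotient.sound h)
    · exact Or.inr (Or.inr (Or.inl (s.symm h)))
    · exact Or.inr (Or.inl (s.symm h))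
  | succ j ih =>
    obtain ⟨Q', h1, h2⟩ := h
    by_cases hy : s'.r u y
    · rcases (hC y).1 hy with h | h
      · exact Or.inr (Or.inl h)
      · exact Or.inr (Or.inr (Or.inl h))
    rcases h2 with rfl | h2
    · rcases ih y h1 with h | h | h | ⟨b, hb, h⟩
      · exact Or.inl (near_mono (Nat.le_succ j) h)
      · exact Or.inr (Or.inl h)
      · exact Or.inr (Or.inr (Or.inl h))
      · exact Or.inr (Or.inr (Or.inr ⟨b, hb, near_mono (Nat.le_succ j) h⟩))
    · obtain ⟨y', rfl⟩ := Quotient.exists_rep Q'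
      by_cases hy' : s'.r u y'
      · right; right; right
        refine ⟨y, ?_, near_mono (Nat.zero_le _) rfl⟩
        rw [Quotient.sound (s := s') hy']
        exact h2
      · have h3 := hadj y' y hy' hy h2
        have hnot : ¬ (s.r u y' ∨ s.r v y') := fun h => hy' ((hC y').2 h)
        push Not at hnot
        rcases ih y' h1 with h | h | h | ⟨b, hb, h⟩
        · exact Or.inl (near_succ h (Or.inr h3))
        · exact absurd h hnot.1
        · exact absurd h hnot.2
        · exact Or.inr (Or.inr (Or.inr ⟨b, hb, near_succ h (Or.inr h3)⟩))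

/-- merging two classes does not increase the number of branch sets met by balls by more than a
constant factor -/
theorem hits_merge (G : SimpleGraph V) (S : W → Set V) (U : Finset W) (s s' : Setoid V) (u v : V)
    (hm : ∀ x y, s'.r x y ↔ (s.r x y ∨ (s.r x u ∧ s.r y v) ∨ (s.r x v ∧ s.r y u)))
    (k R z : ℕ) (hbw : BandwidthLE (redGraph G s') k) (hz : ∀ x, (hits G S U s R x).card ≤ z)
    (x : V) : (hits G S U s' R x).card ≤ (2 * k + 4) * z := by
  classical
  obtain ⟨σ, hσ, hσk⟩ := hbw.abs
  obtain ⟨hfin, hcard⟩ := card_close σ hσ (Quotient.mk s' u) k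
  -- neighbours of the merged class that are different from it
  set NB : Finset (Quotient s') := hfin.toFinset.filter
    (fun Q => (redGraph G s').Adj (Quotient.mk s' u) Q) with hNB
  have hNBc : NB.card ≤ 2 * k + 1 := by
    refine (Finset.card_filter_le _ _).trans ?_
    rw [← Set.ncard_eq_toFinset_card _ hfin]
    exact hcard
  have hout : ∀ Q : Quotient s', Quotient.mk s' (Quotient.out Q) = Q := fun Q => Quotient.out_eq Q
  have hsub : hits G S U s' R x ⊆ hits G S U s R x ∪ (hits G S U s R u ∪ (hits G S U s R v ∪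
      NB.biUnion (fun Q => hits G S U s R (Quotient.out Q)))) := by
    intro h hh
    rw [mem_hits] at hh
    obtain ⟨hU, y, hy, hn⟩ := hh
    rw [Finset.mem_union, Finset.mem_union, Finset.mem_union, Finset.mem_biUnion, mem_hits,
      mem_hits, mem_hits]
    rcases near_merge G s s' u v hm R x y hn with h1 | h1 | h1 | ⟨b, hb, h1⟩
    · exact Or.inl ⟨hU, y, hy, h1⟩
    · exact Or.inr (Or.inl ⟨hU, y, hy, near_mono (Nat.zero_le _) (Quotient.sound h1)⟩)
    · exact Or.inr (Or.inr (Or.inl ⟨hU, y, hy, near_mono (Nat.zero_le _) (Quotient.sound h1)⟩))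
    · right; right; right
      refine ⟨Quotient.mk s' b, ?_, ?_⟩
      · rw [hNB, Finset.mem_filter, Set.Finite.mem_toFinset]
        refine ⟨?_, hb⟩
        have := hσk _ _ hb.symm
        exact this
      · rw [mem_hits]
        refine ⟨hU, y, hy, ?_⟩
        have hbne : ¬ s'.r u b := fun h => hb.ne (Quotient.sound h)
        have hbb : s'.r b (Quotient.out (Quotient.mk s' b)) :=
          s'.symm (Quotient.exact (hout (Quotient.mk s' b)))
        have : s.r b (Quotient.out (Quotient.mk s' b)) := by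
          rcases (hm _ _).1 hbb with h | ⟨h, -⟩ | ⟨h, -⟩
          · exact h
          · exact absurd ((hm u b).2 (Or.inl (s.symm h))) hbne
          · exact absurd ((hm u b).2 (Or.inr (Or.inl ⟨s.refl u, h⟩))) hbne
        rw [← Quotient.sound (s := s) this]
        exact h1
  have h1 := Finset.card_le_card hsub
  have h2 := Finset.card_union_le (hits G S U s R x) (hits G S U s R u ∪ (hits G S U s R v ∪
      NB.biUnion (fun Q => hits G S U s R (Quotient.out Q))))
  have h3 := Finset.card_union_le (hits G S U s R u) (hits G S U s R v ∪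
      NB.biUnion (fun Q => hits G S U s R (Quotient.out Q)))
  have h4 := Finset.card_union_le (hits G S U s R v)
      (NB.biUnion (fun Q => hits G S U s R (Quotient.out Q)))
  have h5 : (NB.biUnion (fun Q => hits G S U s R (Quotient.out Q))).card ≤ (2 * k + 1) * z := by
    calc _ ≤ ∑ Q ∈ NB, (hits G S U s R (Quotient.out Q)).card := Finset.card_biUnion_le
      _ ≤ ∑ Q ∈ NB, z := Finset.sum_le_sum (fun Q _ => hz _)
      _ = NB.card * z := by rw [Finset.sum_const, smul_eq_mul]
      _ ≤ (2 * k + 1) * z := Nat.mul_le_mul_right _ hNBc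
  have h6 := hz x
  have h7 := hz u
  have h8 := hz v
  have h9 : (2 * k + 4) * z = (2 * k + 1) * z + 3 * z := by ring
  omega

/-- degree bound -/
def zz (k t r : ℕ) : ℕ := t * (2 * (k * (3 * (2 * r + 1))) + 1)

/-- degree bound -/
def DD (k t r : ℕ) : ℕ := zz k t r + (4 * k + 2) * ((2 * k + 4) * zz k t r)

theorem core (G : SimpleGraph V) (k t r : ℕ) (ht : 1 ≤ t) (hG : ReducedBandwidthLE G k)
    (hK : ∀ X Y : Finset V, (∀ x ∈ X, ∀ y ∈ Y, G.Adj x y) → X.card < t ∨ Y.card < t)
    (H : SimpleGraph W) (S : W → Set V) (hS : IsModel G r H S) (U : Finset W)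
    (hU : U.Nonempty) : ∃ h ∈ U, {h' | h' ∈ U ∧ H.Adj h h'}.ncard ≤ DD k t r := by
  classical
  obtain ⟨z, hz⟩ : ∃ z, z = zz k t r := ⟨_, rfl⟩
  have hz1 : 1 ≤ z := by
    rw [hz]; unfold zz; exact Nat.mul_pos ht (by omega)
  have hD : DD k t r = z + (4 * k + 2) * ((2 * k + 4) * z) := by
    unfold DD; rw [← hz]
  by_cases hsmall : U.card ≤ z
  · obtain ⟨h, hh⟩ := hU
    refine ⟨h, hh, ?_⟩
    have hsub : {h' | h' ∈ U ∧ H.Adj h h'} ⊆ (U : Set W) := fun x hx => hx.1
    have h1 := Set.ncard_le_ncard hsub (Finset.finite_toSet U)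
    rw [Set.ncard_coe_finset] at h1
    rw [hD]
    omega
  rw [not_le] at hsmall
  obtain ⟨ρ, hρ⟩ : ∃ ρ, ρ = 2 * r + 1 := ⟨_, rfl⟩
  obtain ⟨N, p, ⟨hp0, hpN, hpm⟩, hbw⟩ := hG
  have htop : ∃ x, z < (hits G S U (p N) (2 * ρ) x).card := by
    obtain ⟨h, hh⟩ := hU
    obtain ⟨c, hc, -⟩ := hS.rad h
    refine ⟨c, hsmall.trans_le (Finset.card_le_card ?_)⟩
    intro h' hh'
    rw [mem_hits]
    obtain ⟨c', hc', -⟩ := hS.rad h'
    refine ⟨hh', c', hc', near_mono (Nat.zero_le _) (Quotient.sound ?_)⟩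
    rw [hpN]
    trivial
  have hex : ∃ i, ∃ x, z < (hits G S U (p i) (2 * ρ) x).card := ⟨N, htop⟩
  obtain ⟨x0, hx0⟩ := Nat.find_spec hex
  set i0 := Nat.find hex with hi0
  have hpos : i0 ≠ 0 := by
    intro h0
    rw [h0] at hx0
    have : (hits G S U (p 0) (2 * ρ) x0).card ≤ 1 := by
      rw [Finset.card_le_one]
      have hn : ∀ j (Q : Quotient (p 0)), near (redGraph G (p 0)) j (Quotient.mk _ x0) Q →
          Quotient.mk _ x0 = Q := by
        intro j
        induction j with
        | zero => intro Q h; exact h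
        | succ j ih =>
          rintro Q ⟨Q', h1, h2⟩
          have h3 := ih Q' h1
          rcases h2 with h2 | h2
          · exact h3.trans h2
          · exfalso
            obtain ⟨-, ⟨a, b, ha, hb, hab⟩, ⟨c, d, hc, hd, hcd⟩⟩ := h2
            have e1 : (p 0).r a c := Quotient.exact (ha.trans hc.symm)
            have e2 : (p 0).r b d := Quotient.exact (hb.trans hd.symm)
            rw [hp0] at e1 e2
            have e1' : a = c := e1
            have e2' : b = d := e2
            subst e1'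
            subst e2'
            exact hcd hab
      intro a ha b hb
      rw [mem_hits] at ha hb
      obtain ⟨-, y, hy, hxy⟩ := ha
      obtain ⟨-, y', hy', hxy'⟩ := hb
      have e1 : (p 0).r x0 y := Quotient.exact (hn _ _ hxy)
      have e2 : (p 0).r x0 y' := Quotient.exact (hn _ _ hxy')
      rw [hp0] at e1 e2
      have e1' : x0 = y := e1
      have e2' : x0 = y' := e2
      by_contra hne
      subst e1'
      subst e2'
      exact Set.disjoint_left.1 (hS.disj a b hne) hy hy'
    omega
  obtain ⟨i, hi⟩ : ∃ i, i0 = i + 1 := ⟨i0 - 1, by omega⟩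
  have hiN : i0 ≤ N := Nat.find_min' hex htop
  have hprev : ∀ x, (hits G S U (p i) (2 * ρ) x).card ≤ z := by
    intro x
    by_contra hcon
    rw [not_le] at hcon
    exact Nat.find_min hex (by omega : i < Nat.find hex) ⟨x, hcon⟩
  obtain ⟨u, v, -, hm⟩ := hpm i (by omega)
  rw [hi] at hx0
  obtain ⟨s, hs⟩ : ∃ s, s = p (i + 1) := ⟨_, rfl⟩
  rw [← hs] at hx0 hm
  have hbws := hbw (i + 1) (by omega)
  rw [← hs] at hbws
  have hhits := hits_merge G S U (p i) s u v hm k (2 * ρ) z hbws hprev
  obtain ⟨σ, hσ, hσk⟩ := hbws.abs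
  set P0 : Quotient s := Quotient.mk s x0 with hP0
  obtain ⟨hfin, hcardB⟩ := card_close σ hσ P0 (k * (3 * ρ))
  rw [Set.ncard_eq_toFinset_card _ hfin] at hcardB
  set BF : Finset (Quotient s) := hfin.toFinset with hBF
  have memBF : ∀ j Q, j ≤ 3 * ρ → near (redGraph G s) j P0 Q → Q ∈ BF := by
    intro j Q hj hQ
    rw [hBF, Set.Finite.mem_toFinset]
    exact near_close hσk (near_mono hj hQ)
  -- classes and vertices complete to them
  let cls : Quotient s → Finset V := fun Q => univ.filter (fun v => Quotient.mk s v = Q)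
  let blk : Quotient s → Finset V := fun Q => univ.filter (fun v => ∀ x ∈ cls Q, G.Adj x v)
  let zone : Quotient s → Finset V := fun Q => if (cls Q).card < t then cls Q else blk Q
  have hzone : ∀ Q, (zone Q).card ≤ t := by
    intro Q
    by_cases hQ : (cls Q).card < t
    · simp only [zone, if_pos hQ]; exact hQ.le
    · simp only [zone, if_neg hQ]
      rcases hK (cls Q) (blk Q) (by
        intro x hx y hy
        exact (Finset.mem_filter.1 hy).2 x hx) with h | h
      · exact absurd h hQ
      · exact h.le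
  set Z : Finset V := BF.biUnion zone with hZ
  have hZc : Z.card ≤ z := by
    calc Z.card ≤ ∑ Q ∈ BF, (zone Q).card := Finset.card_biUnion_le
      _ ≤ ∑ Q ∈ BF, t := Finset.sum_le_sum (fun Q _ => hzone Q)
      _ = BF.card * t := by rw [Finset.sum_const, smul_eq_mul]
      _ ≤ (2 * (k * (3 * ρ)) + 1) * t := Nat.mul_le_mul_right _ hcardB
      _ = z := by rw [hz, hρ, zz, Nat.mul_comm]
  -- a branch set avoiding `Z`
  have hexh : ∃ h ∈ hits G S U s (2 * ρ) x0, ∀ x ∈ S h, x ∉ Z := by
    by_contra hcon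
    push Not at hcon
    have := card_meet S hS.disj (hits G S U s (2 * ρ) x0) Z (fun a ha => by
      obtain ⟨x, hx, hxZ⟩ := hcon a ha
      exact ⟨x, hxZ, hx⟩)
    omega
  obtain ⟨h, hh, hhZ⟩ := hexh
  rw [mem_hits] at hh
  obtain ⟨hhU, x, hxS, hxn⟩ := hh
  -- the step
  have step : ∀ (a a' : V) (j : ℕ), a ∉ Z → a' ∉ Z → G.Adj a a' → j ≤ 3 * ρ →
      near (redGraph G s) j P0 (Quotient.mk s a) →
      near (redGraph G s) (j + 1) P0 (Quotient.mk s a') := by
    intro a a' j ha ha' hadj hj hna
    by_cases heq : Quotient.mk s a = Quotient.mk s a'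
    · exact near_succ hna (Or.inl heq)
    by_cases hred : (redGraph G s).Adj (Quotient.mk s a) (Quotient.mk s a')
    · exact near_succ hna (Or.inr hred)
    · exfalso
      have haB : Quotient.mk s a ∈ BF := memBF j _ hj hna
      have hbig : ¬ (cls (Quotient.mk s a)).card < t := by
        intro hlt
        apply ha
        rw [hZ, Finset.mem_biUnion]
        refine ⟨_, haB, ?_⟩
        simp only [zone, if_pos hlt]
        exact Finset.mem_filter.2 ⟨Finset.mem_univ _, rfl⟩
      apply ha'
      rw [hZ, Finset.mem_biUnion]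
      refine ⟨_, haB, ?_⟩
      simp only [zone, if_neg hbig]
      refine Finset.mem_filter.2 ⟨Finset.mem_univ _, ?_⟩
      intro b hb
      rw [Finset.mem_filter] at hb
      by_contra hnadj
      exact hred ⟨heq, ⟨a, a', rfl, rfl, hadj⟩, ⟨b, a', hb.2, rfl, hnadj⟩⟩
  have walk : ∀ (a b : V) (w : G.Walk a b) (j : ℕ), (∀ y ∈ w.support, y ∈ S h) →
      j + w.length ≤ 3 * ρ → near (redGraph G s) j P0 (Quotient.mk s a) →
      near (redGraph G s) (j + w.length) P0 (Quotient.mk s b) := by
    intro a b w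
    induction w with
    | nil => intro j _ _ h1; simpa using h1
    | @cons a a' b hadj w ih =>
      intro j hsup hlen h1
      rw [SimpleGraph.Walk.length_cons] at hlen ⊢
      have ha : a ∈ S h := hsup a (SimpleGraph.Walk.start_mem_support _)
      have ha' : a' ∈ S h := hsup a' (by
        rw [SimpleGraph.Walk.support_cons]
        exact List.mem_cons_of_mem _ (SimpleGraph.Walk.start_mem_support _))
      have h2 := step a a' j (hhZ a ha) (hhZ a' ha') hadj (by omega) h1
      have h3 := ih (j + 1) (fun y hy => hsup y (by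
        rw [SimpleGraph.Walk.support_cons]
        exact List.mem_cons_of_mem _ hy)) (by omega) h2
      rw [show j + (w.length + 1) = j + 1 + w.length by omega]
      exact h3
  have hSh : ∀ y ∈ S h, near (redGraph G s) (2 * ρ + 2 * r) P0 (Quotient.mk s y) := by
    intro y hy
    obtain ⟨c, hc, hrad⟩ := hS.rad h
    obtain ⟨w1, hw1, hs1⟩ := hrad x hxS
    obtain ⟨w2, hw2, hs2⟩ := hrad y hy
    have hlen : (w1.reverse.append w2).length ≤ 2 * r := by
      rw [SimpleGraph.Walk.length_append, SimpleGraph.Walk.length_reverse]; omega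
    have h1 := walk x y (w1.reverse.append w2) (2 * ρ) (by
      intro v hv
      rw [SimpleGraph.Walk.mem_support_append_iff, SimpleGraph.Walk.support_reverse,
        List.mem_reverse] at hv
      rcases hv with hv | hv
      · exact hs1 v hv
      · exact hs2 v hv) (by omega) hxn
    exact near_mono (by omega) h1
  refine ⟨h, hhU, ?_⟩
  obtain ⟨T, hTc, hT⟩ := cover hσ hσk P0 ρ (by omega)
  -- neighbours
  have hsub : {h' | h' ∈ U ∧ H.Adj h h'} ⊆
      (((U.filter (fun h' => ∃ y ∈ Z, y ∈ S h')) ∪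
        T.biUnion (fun Q => hits G S U s (2 * ρ) (Quotient.out Q)) : Finset W) : Set W) := by
    rintro h' ⟨hh'U, hadj⟩
    rw [Finset.mem_coe, Finset.mem_union, Finset.mem_filter, Finset.mem_biUnion]
    obtain ⟨a, ha, a', ha', haa⟩ := hS.adj h h' hadj
    by_cases haZ : a' ∈ Z
    · exact Or.inl ⟨hh'U, a', haZ, ha'⟩
    · right
      have h1 := step a a' (2 * ρ + 2 * r) (hhZ a ha) haZ haa (by omega) (hSh a ha)
      obtain ⟨Q, hQT, hQn⟩ := hT _ (near_mono (by omega) h1)
      refine ⟨Q, hQT, ?_⟩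
      rw [mem_hits]
      refine ⟨hh'U, a', ha', ?_⟩
      have hout : Quotient.mk s (Quotient.out Q) = Q := Quotient.out_eq Q
      rw [hout]
      exact hQn
  have h1 := Set.ncard_le_ncard hsub (Finset.finite_toSet _)
  rw [Set.ncard_coe_finset] at h1
  have h2 : (U.filter (fun h' => ∃ y ∈ Z, y ∈ S h')).card ≤ z :=
    (card_meet S hS.disj _ Z (fun a ha => (Finset.mem_filter.1 ha).2)).trans hZc
  have h3 : (T.biUnion (fun Q => hits G S U s (2 * ρ) (Quotient.out Q))).card ≤
      (4 * k + 2) * ((2 * k + 4) * z) := by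
    calc _ ≤ ∑ Q ∈ T, (hits G S U s (2 * ρ) (Quotient.out Q)).card := Finset.card_biUnion_le
      _ ≤ ∑ Q ∈ T, (2 * k + 4) * z := Finset.sum_le_sum (fun Q _ => hhits _)
      _ = T.card * ((2 * k + 4) * z) := by rw [Finset.sum_const, smul_eq_mul]
      _ ≤ (4 * k + 2) * ((2 * k + 4) * z) := Nat.mul_le_mul_right _ hTc
  have h4 := Finset.card_union_le (U.filter (fun h' => ∃ y ∈ Z, y ∈ S h'))
    (T.biUnion (fun Q => hits G S U s (2 * ρ) (Quotient.out Q)))
  rw [hD]
  omega

theorem edges_le (H : SimpleGraph W) (D : ℕ)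
    (hdeg : ∀ U : Finset W, U.Nonempty → ∃ h ∈ U, {h' | h' ∈ U ∧ H.Adj h h'}.ncard ≤ D)
    (U : Finset W) : {e | e ∈ H.edgeSet ∧ ∀ x ∈ e, x ∈ U}.ncard ≤ D * U.card := by
  classical
  induction U using Finset.strongInduction with
  | H U ih =>
  rcases U.eq_empty_or_nonempty with rfl | hU
  · have : {e | e ∈ H.edgeSet ∧ ∀ x ∈ e, x ∈ (∅ : Finset W)} = ∅ := by
      ext e
      simp only [Set.mem_ofPred_eq, Set.mem_empty_iff_false, iff_false]
      rintro ⟨-, h⟩
      induction e using Sym2.ind with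
      | _ a b => exact absurd (h a (Sym2.mem_mk_left _ _)) (Finset.notMem_empty _)
    rw [this]; simp
  · obtain ⟨h, hh, hd⟩ := hdeg U hU
    have hsub : {e | e ∈ H.edgeSet ∧ ∀ x ∈ e, x ∈ U} ⊆
        {e | e ∈ H.edgeSet ∧ ∀ x ∈ e, x ∈ U.erase h} ∪
          (fun h' => s(h, h')) '' {h' | h' ∈ U ∧ H.Adj h h'} := by
      rintro e ⟨he, hx⟩
      by_cases hhe : h ∈ e
      · right
        obtain ⟨b, rfl⟩ := hhe
        exact ⟨b, ⟨hx b (Sym2.mem_mk_right _ _), he⟩, rfl⟩
      · left
        refine ⟨he, fun x hxe => Finset.mem_erase.2 ⟨?_, hx x hxe⟩⟩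
        rintro rfl
        exact hhe hxe
    have h1 := Set.ncard_le_ncard hsub (Set.toFinite _)
    have h2 := Set.ncard_union_le {e | e ∈ H.edgeSet ∧ ∀ x ∈ e, x ∈ U.erase h}
      ((fun h' => s(h, h')) '' {h' | h' ∈ U ∧ H.Adj h h'})
    have h3 := Set.ncard_image_le (f := fun h' => s(h, h'))
      (Set.toFinite {h' | h' ∈ U ∧ H.Adj h h'})
    have h4 := ih (U.erase h) (Finset.erase_ssubset hh)
    rw [Finset.card_erase_of_mem hh] at h4
    have h5 : 0 < U.card := Finset.card_pos.2 ⟨h, hh⟩
    have h6 : D * U.card = D * (U.card - 1) + D := by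
      obtain ⟨m, hm⟩ : ∃ m, U.card = m + 1 := ⟨U.card - 1, by omega⟩
      rw [hm, Nat.add_sub_cancel, Nat.mul_succ]
    omega

theorem DD_le (k t r : ℕ) :
    DD k t r ≤ t * (12 * k + 1) * (1 + (4 * k + 2) * (2 * k + 4)) * (r + 1) := by
  have h1 : zz k t r ≤ t * ((12 * k + 1) * (r + 1)) := by
    unfold zz
    apply Nat.mul_le_mul_left
    nlinarith
  calc DD k t r = (1 + (4 * k + 2) * (2 * k + 4)) * zz k t r := by unfold DD; ring
    _ ≤ (1 + (4 * k + 2) * (2 * k + 4)) * (t * ((12 * k + 1) * (r + 1))) :=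
        Nat.mul_le_mul_left _ h1
    _ = _ := by ring

/-- **Linear expansion**: explicit form. -/
theorem main (G : SimpleGraph V) (k t r : ℕ) (ht : 1 ≤ t) (hG : ReducedBandwidthLE G k)
    (hK : ∀ X Y : Finset V, (∀ x ∈ X, ∀ y ∈ Y, G.Adj x y) → X.card < t ∨ Y.card < t)
    (H : SimpleGraph W) (hH : IsShallowMinor r H G) :
    H.edgeSet.ncard ≤
      t * (12 * k + 1) * (1 + (4 * k + 2) * (2 * k + 4)) * (r + 1) * Fintype.card W := by
  classical
  obtain ⟨S, hS⟩ := hH
  have h1 := edges_le H (DD k t r) (fun U hU => core G k t r ht hG hK H S hS U hU) univ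
  have h2 : {e | e ∈ H.edgeSet ∧ ∀ x ∈ e, x ∈ (univ : Finset W)} = H.edgeSet := by
    ext e; simp
  rw [h2, Finset.card_univ] at h1
  exact h1.trans (Nat.mul_le_mul_right _ (DD_le k t r))

end Core

/-- a graph without a subgraph `K_{s,t}` -/
theorem no_biclique {V : Type} [Fintype V] (G : SimpleGraph V) (s t : ℕ)
    (h : (completeBipartiteGraph (Fin s) (Fin t)).Free G) (X Y : Finset V)
    (hXY : ∀ x ∈ X, ∀ y ∈ Y, G.Adj x y) : X.card < max s t ∨ Y.card < max s t := by
  classical
  by_contra hcon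
  push Not at hcon
  obtain ⟨hX, hY⟩ := hcon
  obtain ⟨f⟩ : Nonempty (Fin s ↪ X) := Function.Embedding.nonempty_of_card_le (by
    simp only [Fintype.card_fin, Fintype.card_coe]; exact (le_max_left _ _).trans hX)
  obtain ⟨g⟩ : Nonempty (Fin t ↪ Y) := Function.Embedding.nonempty_of_card_le (by
    simp only [Fintype.card_fin, Fintype.card_coe]; exact (le_max_right _ _).trans hY)
  apply h
  refine ⟨⟨⟨Sum.elim (fun i => (f i : V)) (fun j => (g j : V)), ?_⟩, ?_⟩⟩
  · rintro (i | i) (j | j) hij
    · simp at hij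
    · exact hXY _ (f i).2 _ (g j).2
    · exact (hXY _ (f j).2 _ (g i).2).symm
    · simp at hij
  · rintro (i | i) (j | j) hij
    · congr 1
      exact f.injective (Subtype.ext hij)
    · have h1 : (f i : V) = (g j : V) := hij
      exact absurd h1 (hXY _ (f i).2 _ (g j).2).ne
    · have h1 : (g i : V) = (f j : V) := hij
      exact absurd h1 (hXY _ (f j).2 _ (g i).2).ne'
    · congr 1
      exact g.injective (Subtype.ext hij)

end Pool.Agent.Q277.RBLin
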