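import Mathlib

/-!
# EPPA for finite three-graphs (helper277)
-/

set_option autoImplicit false
open Finset

namespace Pool.Agent.Q277.TG

section general
variable {W : Type} [Fintype W] [DecidableEq W]

/-- left part of a set -/
def lf (side : W → Bool) (e : Finset W) : Finset W := e.filter (fun w => side w = true)
/-- right part of a set -/
def rt (side : W → Bool) (e : Finset W) : Finset W := e.filter (fun w => side w = false)

/-- sum of the cross values -/
def cs (side : W → Bool) (E : W → W → ZMod 2) (e : Finset W) : ZMod 2 :=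
  ∑ u ∈ lf side e, ∑ v ∈ rt side e, E u v

/-- balanced four-set -/
def bal (side : W → Bool) (e : Finset W) : Prop := (lf side e).card = 2 ∧ (rt side e).card = 2

instance (side : W → Bool) (e : Finset W) : Decidable (bal side e) :=
  inferInstanceAs (Decidable (_ ∧ _))

/-- the hyperedges given by `E` -/
def HB (side : W → Bool) (E : W → W → ZMod 2) : Finset (Finset W) :=
  univ.filter (fun e => bal side e ∧ cs side E e = 1)

lemma mem_HB {side : W → Bool} {E : W → W → ZMod 2} {e : Finset W} :
    e ∈ HB side E ↔ bal side e ∧ cs side E e = 1 := by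
  simp [HB]

lemma card_lf_add_rt (side : W → Bool) (e : Finset W) :
    (lf side e).card + (rt side e).card = e.card := by
  unfold lf rt
  have := Finset.card_filter_add_card_filter_not (s := e) (fun w => side w = true)
  rw [← this]
  congr 2
  apply Finset.filter_congr
  intro x _
  cases side x <;> simp

lemma card_filter_side (side : W → Bool) (r : W → W → Prop)
    (hr : ∀ x y, r x y ↔ side x = side y) (e : Finset W) (v : W)
    [DecidablePred (fun w => r v w)] :
    (e.filter (fun w => r v w)).card =
      if side v = true then (lf side e).card else (rt side e).card := by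
  cases hv : side v
  · rw [if_neg (by simp)]
    apply congrArg Finset.card
    ext w
    simp only [rt, Finset.mem_filter, hr, hv, eq_comm]
  · rw [if_pos rfl]
    apply congrArg Finset.card
    ext w
    simp only [lf, Finset.mem_filter, hr, hv, eq_comm]

lemma bal.card {side : W → Bool} {e : Finset W} (h : bal side e) : e.card = 4 := by
  rw [← card_lf_add_rt side e, h.1, h.2]

/-- counting four-subsets of a five-set by deleting a vertex -/
lemma count5 (H : Finset (Finset W)) (hH : ∀ e ∈ H, e.card = 4) (S : Finset W) (hS : S.card = 5) :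
    (H.filter (fun e => e ⊆ S)).card = ∑ v ∈ S, if S.erase v ∈ H then 1 else 0 := by
  rw [← Finset.card_filter]
  symm
  apply Finset.card_bij (fun v _ => S.erase v)
  · intro v hv
    rw [Finset.mem_filter] at hv ⊢
    exact ⟨hv.2, Finset.erase_subset _ _⟩
  · intro v hv w hw h
    rw [Finset.mem_filter] at hv hw
    exact Finset.erase_injOn S hv.1 hw.1 h
  · intro e he
    rw [Finset.mem_filter] at he
    have h1 : (S \ e).card = 1 := by
      rw [Finset.card_sdiff_of_subset he.2, hS, hH e he.1]
    obtain ⟨v, hv⟩ := Finset.card_eq_one.mp h1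
    have hvS : v ∈ S \ e := by rw [hv]; simp
    rw [Finset.mem_sdiff] at hvS
    have h2 : S.erase v = e := by
      ext x
      rw [Finset.mem_erase]
      constructor
      · rintro ⟨h3, h4⟩
        by_contra h5
        have : x ∈ S \ e := Finset.mem_sdiff.mpr ⟨h4, h5⟩
        rw [hv, Finset.mem_singleton] at this
        exact h3 this
      · intro hx
        exact ⟨fun h => hvS.2 (h ▸ hx), he.2 hx⟩
    exact ⟨v, by rw [Finset.mem_filter, h2]; exact ⟨hvS.1, he.1⟩, h2⟩

lemma lf_erase (side : W → Bool) (S : Finset W) (v : W) :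
    lf side (S.erase v) = (lf side S).erase v := by
  unfold lf; rw [Finset.filter_erase]

lemma rt_erase (side : W → Bool) (S : Finset W) (v : W) :
    rt side (S.erase v) = (rt side S).erase v := by
  unfold rt; rw [Finset.filter_erase]

lemma mem_lf {side : W → Bool} {S : Finset W} {v : W} :
    v ∈ lf side S ↔ v ∈ S ∧ side v = true := by simp [lf]

lemma mem_rt {side : W → Bool} {S : Finset W} {v : W} :
    v ∈ rt side S ↔ v ∈ S ∧ side v = false := by simp [rt]

lemma two_mul_zmod (x : ZMod 2) : x + x = 0 := CharTwo.add_self_eq_zero x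

lemma sum_erase_sum {L : Finset W} (hL : L.card = 3) (F : W → ZMod 2) :
    ∑ l ∈ L, ∑ u ∈ L.erase l, F u = 0 := by
  have h1 : ∀ l ∈ L, ∑ u ∈ L.erase l, F u = (∑ u ∈ L, F u) + F l := by
    intro l hl
    rw [← Finset.add_sum_erase L F hl, add_comm (F l), add_assoc, two_mul_zmod, add_zero]
  rw [Finset.sum_congr rfl h1, Finset.sum_add_distrib, Finset.sum_const, hL]
  generalize (∑ x ∈ L, F x) = t
  revert t; decide

lemma sum_split (side : W → Bool) (S : Finset W) (F : W → ZMod 2) :
    ∑ v ∈ S, F v = ∑ v ∈ lf side S, F v + ∑ v ∈ rt side S, F v := by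
  unfold lf rt
  rw [← Finset.sum_filter_add_sum_filter_not S (fun w => side w = true)]
  congr 1
  apply Finset.sum_congr _ (fun _ _ => rfl)
  apply Finset.filter_congr
  intro x _
  cases side x <;> simp

/-- the parity condition -/
lemma HB_even (side : W → Bool) (E : W → W → ZMod 2) (S : Finset W) (hS : S.card = 5)
    (hl : (lf side S).card ≤ 3) (hr : (rt side S).card ≤ 3) :
    Even ((HB side E).filter (fun e => e ⊆ S)).card := by
  have hsum := card_lf_add_rt side S
  rw [count5 _ (fun e he => (mem_HB.mp he).1.card) S hS]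
  rw [← ZMod.natCast_eq_zero_iff_even]
  push_cast
  rw [sum_split side]
  have hcase : (lf side S).card = 3 ∧ (rt side S).card = 2 ∨
      (lf side S).card = 2 ∧ (rt side S).card = 3 := by omega
  rcases hcase with ⟨h3, h2⟩ | ⟨h2, h3⟩
  · have e1 : ∀ v ∈ lf side S, (if S.erase v ∈ HB side E then (1 : ZMod 2) else 0) =
        ∑ u ∈ (lf side S).erase v, ∑ w ∈ rt side S, E u w := by
      intro v hv
      have hvr : v ∉ rt side S := fun h => by
        have := (mem_lf.mp hv).2.symm.trans (mem_rt.mp h).2
        simp at this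
      have hb : bal side (S.erase v) := by
        refine ⟨?_, ?_⟩
        · rw [lf_erase, Finset.card_erase_of_mem hv, h3]
        · rw [rt_erase, Finset.erase_eq_of_notMem hvr, h2]
      have : (S.erase v ∈ HB side E) ↔ cs side E (S.erase v) = 1 := by
        rw [mem_HB]; exact and_iff_right hb
      simp only [this]
      unfold cs
      rw [lf_erase, rt_erase, Finset.erase_eq_of_notMem hvr]
      generalize (∑ u ∈ (lf side S).erase v, ∑ w ∈ rt side S, E u w) = t
      revert t; decide
    have e2 : ∀ v ∈ rt side S, (if S.erase v ∈ HB side E then (1 : ZMod 2) else 0) = 0 := by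
      intro v hv
      rw [if_neg]
      intro h
      have := (mem_HB.mp h).1.2
      rw [rt_erase, Finset.card_erase_of_mem hv, h2] at this
      omega
    rw [Finset.sum_congr rfl e1, Finset.sum_congr rfl e2, Finset.sum_const_zero, add_zero]
    exact sum_erase_sum h3 _
  · have e1 : ∀ v ∈ rt side S, (if S.erase v ∈ HB side E then (1 : ZMod 2) else 0) =
        ∑ w ∈ (rt side S).erase v, ∑ u ∈ lf side S, E u w := by
      intro v hv
      have hvr : v ∉ lf side S := fun h => by
        have := (mem_lf.mp h).2.symm.trans (mem_rt.mp hv).2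
        simp at this
      have hb : bal side (S.erase v) := by
        refine ⟨?_, ?_⟩
        · rw [lf_erase, Finset.erase_eq_of_notMem hvr, h2]
        · rw [rt_erase, Finset.card_erase_of_mem hv, h3]
      have : (S.erase v ∈ HB side E) ↔ cs side E (S.erase v) = 1 := by
        rw [mem_HB]; exact and_iff_right hb
      simp only [this]
      unfold cs
      rw [lf_erase, rt_erase, Finset.erase_eq_of_notMem hvr, Finset.sum_comm]
      generalize (∑ u ∈ (rt side S).erase v, ∑ w ∈ lf side S, E w u) = t
      revert t; decide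
    have e2 : ∀ v ∈ lf side S, (if S.erase v ∈ HB side E then (1 : ZMod 2) else 0) = 0 := by
      intro v hv
      rw [if_neg]
      intro h
      have := (mem_HB.mp h).1.1
      rw [lf_erase, Finset.card_erase_of_mem hv, h2] at this
      omega
    rw [Finset.sum_congr rfl e1, Finset.sum_congr rfl e2, Finset.sum_const_zero, zero_add]
    exact sum_erase_sum h3 _

lemma lf_map {W' : Type} [Fintype W'] [DecidableEq W'] (side : W → Bool) (side' : W' → Bool)
    (f : W ↪ W') (h : ∀ w, side' (f w) = side w) (e : Finset W) :
    lf side' (e.map f) = (lf side e).map f := by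
  unfold lf
  rw [Finset.filter_map]
  congr 1
  apply Finset.filter_congr
  intro x _
  simp [h]

lemma rt_map {W' : Type} [Fintype W'] [DecidableEq W'] (side : W → Bool) (side' : W' → Bool)
    (f : W ↪ W') (h : ∀ w, side' (f w) = side w) (e : Finset W) :
    rt side' (e.map f) = (rt side e).map f := by
  unfold rt
  rw [Finset.filter_map]
  congr 1
  apply Finset.filter_congr
  intro x _
  simp [h]

lemma lf_map' {W' : Type} [Fintype W'] [DecidableEq W'] (side : W → Bool) (side' : W' → Bool)
    (f : W ↪ W') (h : ∀ w, side' (f w) = !side w) (e : Finset W) :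
    lf side' (e.map f) = (rt side e).map f := by
  unfold lf rt
  rw [Finset.filter_map]
  congr 1
  apply Finset.filter_congr
  intro x _
  simp [h]

lemma rt_map' {W' : Type} [Fintype W'] [DecidableEq W'] (side : W → Bool) (side' : W' → Bool)
    (f : W ↪ W') (h : ∀ w, side' (f w) = !side w) (e : Finset W) :
    rt side' (e.map f) = (lf side e).map f := by
  unfold rt lf
  rw [Finset.filter_map]
  congr 1
  apply Finset.filter_congr
  intro x _
  simp [h]

/-- maps that change `E` by a coboundary preserve the hyperedges -/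
lemma HB_map {W' : Type} [Fintype W'] [DecidableEq W'] (side : W → Bool) (side' : W' → Bool)
    (E : W → W → ZMod 2) (E' : W' → W' → ZMod 2) (f : W ↪ W')
    (h : ∀ w, side' (f w) = side w) (α : W → ZMod 2)
    (hE : ∀ u v, side u = true → side v = false → E' (f u) (f v) = E u v + α u + α v)
    (e : Finset W) : e ∈ HB side E ↔ e.map f ∈ HB side' E' := by
  rw [mem_HB, mem_HB]
  unfold bal cs
  rw [lf_map side side' f h, rt_map side side' f h]
  simp only [Finset.card_map, Finset.sum_map]
  apply and_congr_right
  rintro ⟨h1, h2⟩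
  have : ∑ x ∈ lf side e, ∑ y ∈ rt side e, E' (f x) (f y) =
      ∑ x ∈ lf side e, ∑ y ∈ rt side e, E x y := by
    have e1 : ∀ x ∈ lf side e, ∑ y ∈ rt side e, E' (f x) (f y) =
        ∑ y ∈ rt side e, E x y + ∑ y ∈ rt side e, α y := by
      intro x hx
      have : ∀ y ∈ rt side e, E' (f x) (f y) = E x y + α x + α y := fun y hy =>
        hE x y (mem_lf.mp hx).2 (mem_rt.mp hy).2
      rw [Finset.sum_congr rfl this, Finset.sum_add_distrib, Finset.sum_add_distrib,
        Finset.sum_const, h2]
      generalize α x = t
      have : (2 • t) = 0 := by revert t; decide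
      rw [this, add_zero]
    rw [Finset.sum_congr rfl e1, Finset.sum_add_distrib, Finset.sum_const, h1]
    generalize ∑ y ∈ rt side e, α y = t
    have : (2 • t) = 0 := by revert t; decide
    rw [this, add_zero]
  rw [this]

lemma HB_map' {W' : Type} [Fintype W'] [DecidableEq W'] (side : W → Bool) (side' : W' → Bool)
    (E : W → W → ZMod 2) (E' : W' → W' → ZMod 2) (f : W ↪ W')
    (h : ∀ w, side' (f w) = !side w) (α : W → ZMod 2)
    (hE : ∀ u v, side u = true → side v = false → E' (f v) (f u) = E u v + α u + α v)
    (e : Finset W) : e ∈ HB side E ↔ e.map f ∈ HB side' E' := by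
  rw [mem_HB, mem_HB]
  unfold bal cs
  rw [lf_map' side side' f h, rt_map' side side' f h]
  simp only [Finset.card_map, Finset.sum_map]
  rw [and_comm (a := (rt side e).card = 2)]
  apply and_congr_right
  rintro ⟨h1, h2⟩
  have : ∑ y ∈ rt side e, ∑ x ∈ lf side e, E' (f y) (f x) =
      ∑ x ∈ lf side e, ∑ y ∈ rt side e, E x y := by
    rw [Finset.sum_comm]
    have e1 : ∀ x ∈ lf side e, ∑ y ∈ rt side e, E' (f y) (f x) =
        ∑ y ∈ rt side e, E x y + ∑ y ∈ rt side e, α y := by
      intro x hx
      have : ∀ y ∈ rt side e, E' (f y) (f x) = E x y + α x + α y := fun y hy =>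
        hE x y (mem_lf.mp hx).2 (mem_rt.mp hy).2
      rw [Finset.sum_congr rfl this, Finset.sum_add_distrib, Finset.sum_add_distrib,
        Finset.sum_const, h2]
      generalize α x = t
      have : (2 • t) = 0 := by revert t; decide
      rw [this, add_zero]
    rw [Finset.sum_congr rfl e1, Finset.sum_add_distrib, Finset.sum_const, h1]
    generalize ∑ y ∈ rt side e, α y = t
    have : (2 • t) = 0 := by revert t; decide
    rw [this, add_zero]
  rw [this]

end general

section structureA
variable {V : Type} [Fintype V] [DecidableEq V]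

/-- indicator of a hyperedge -/
def hh (H : Finset (Finset V)) (x x' y y' : V) : ZMod 2 :=
  if x ≠ x' ∧ y ≠ y' ∧ ({x, x', y, y'} : Finset V) ∈ H then 1 else 0

lemma hh_symm1 (H : Finset (Finset V)) (x x' y y' : V) : hh H x x' y y' = hh H x' x y y' := by
  unfold hh
  rw [Finset.insert_comm x x']
  simp only [ne_comm (a := x) (b := x')]

lemma hh_symm2 (H : Finset (Finset V)) (x x' y y' : V) : hh H x x' y y' = hh H x x' y' y := by
  unfold hh
  rw [Finset.pair_comm y y']
  simp only [ne_comm (a := y) (b := y')]

lemma hh_self1 (H : Finset (Finset V)) (x y y' : V) : hh H x x y y' = 0 := by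
  unfold hh; simp

lemma hh_self2 (H : Finset (Finset V)) (x x' y : V) : hh H x x' y y = 0 := by
  unfold hh; simp

lemma hh_swap (H : Finset (Finset V)) (x x' y y' : V) : hh H x x' y y' = hh H y y' x x' := by
  unfold hh
  have : ({x, x', y, y'} : Finset V) = {y, y', x, x'} := by
    ext z; simp only [Finset.mem_insert, Finset.mem_singleton]; tauto
  rw [this]
  congr 1
  apply propext
  tauto

/-- three vertices on one side and two on the other -/
lemma coc_aux (side : V → Bool) (H : Finset (Finset V)) (hH : ∀ e ∈ H, bal side e)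
    (h5 : ∀ S : Finset V, S.card = 5 → (lf side S).card ≤ 3 → (rt side S).card ≤ 3 →
      Even (H.filter (fun e => e ⊆ S)).card)
    (b : Bool) {x x' x'' y y' : V} (hx : side x = b) (hx' : side x' = b) (hx'' : side x'' = b)
    (hy : side y = !b) (hy' : side y' = !b) :
    hh H x x' y y' + hh H x' x'' y y' + hh H x x'' y y' = 0 := by
  by_cases hyy : y = y'
  · subst hyy; simp [hh_self2]
  by_cases h1 : x = x'
  · subst h1; rw [hh_self1, zero_add]; exact two_mul_zmod _
  by_cases h2 : x' = x''
  · subst h2; rw [hh_self1, add_zero]; exact two_mul_zmod _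
  by_cases h3 : x = x''
  · subst h3; rw [hh_self1, add_zero, hh_symm1 H x' x]; exact two_mul_zmod _
  have nxy : ∀ a c : V, side a = b → side c = !b → a ≠ c := by
    rintro a c ha hc rfl
    rw [ha] at hc
    cases b <;> simp at hc
  have a1 := nxy x y hx hy
  have a2 := nxy x y' hx hy'
  have a3 := nxy x' y hx' hy
  have a4 := nxy x' y' hx' hy'
  have a5 := nxy x'' y hx'' hy
  have a6 := nxy x'' y' hx'' hy'
  set S : Finset V := {x, x', x'', y, y'} with hSdef
  have hS : S.card = 5 := by
    rw [hSdef, Finset.card_insert_of_notMem, Finset.card_insert_of_notMem,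
      Finset.card_insert_of_notMem, Finset.card_pair hyy] <;>
    simp only [Finset.mem_insert, Finset.mem_singleton] <;> tauto
  have f1 : S.filter (fun w => side w = b) = {x, x', x''} := by
    rw [hSdef]
    simp only [Finset.filter_insert, Finset.filter_singleton, hx, hx', hx'', hy, hy',
      Bool.not_eq_self, if_true, if_false]
    simp
  have f2 : S.filter (fun w => side w = !b) = {y, y'} := by
    rw [hSdef]
    simp only [Finset.filter_insert, Finset.filter_singleton, hx, hx', hx'', hy, hy',
      Bool.eq_not_self, if_true, if_false]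
  have c1 : (S.filter (fun w => side w = b)).card = 3 := by
    rw [f1, Finset.card_insert_of_notMem, Finset.card_pair h2]
    simp only [Finset.mem_insert, Finset.mem_singleton]; tauto
  have c2 : (S.filter (fun w => side w = !b)).card = 2 := by
    rw [f2, Finset.card_pair hyy]
  have hev : Even (H.filter (fun e => e ⊆ S)).card := by
    apply h5 S hS
    · cases b
      · exact le_trans (le_of_eq c2) (by norm_num)
      · exact le_of_eq c1
    · cases b
      · exact le_of_eq c1
      · exact le_trans (le_of_eq c2) (by norm_num)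
  rw [count5 H (fun e he => (hH e he).card) S hS, ← ZMod.natCast_eq_zero_iff_even] at hev
  push_cast at hev
  have g1 : ∀ z ∈ S, side z = (!b) → S.erase z ∉ H := by
    intro z hz hzb hzH
    have hb := hH _ hzH
    have : ((S.erase z).filter (fun w => side w = !b)).card = 2 := by
      cases b
      · exact hb.1
      · exact hb.2
    rw [Finset.filter_erase, Finset.card_erase_of_mem, c2] at this
    · omega
    · rw [Finset.mem_filter]; exact ⟨hz, hzb⟩
  have e1 : S.erase x = {x', x'', y, y'} := by
    rw [hSdef, Finset.erase_insert]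
    simp only [Finset.mem_insert, Finset.mem_singleton]; tauto
  have e2 : S.erase x' = {x, x'', y, y'} := by
    rw [hSdef, Finset.insert_comm, Finset.erase_insert]
    simp only [Finset.mem_insert, Finset.mem_singleton]; tauto
  have e3 : S.erase x'' = {x, x', y, y'} := by
    rw [hSdef, Finset.insert_comm x' x'', Finset.insert_comm x x'', Finset.erase_insert]
    simp only [Finset.mem_insert, Finset.mem_singleton]; tauto
  have s1 : (∑ v ∈ S, if S.erase v ∈ H then (1 : ZMod 2) else 0) =
      (if S.erase x ∈ H then (1 : ZMod 2) else 0) + ((if S.erase x' ∈ H then (1 : ZMod 2) else 0) +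
      ((if S.erase x'' ∈ H then (1 : ZMod 2) else 0) + ((if S.erase y ∈ H then (1 : ZMod 2) else 0)
      + (if S.erase y' ∈ H then (1 : ZMod 2) else 0)))) := by
    have hF : ∀ F : V → ZMod 2, ∑ v ∈ S, F v = F x + (F x' + (F x'' + (F y + F y'))) := by
      intro F
      rw [hSdef, Finset.sum_insert, Finset.sum_insert, Finset.sum_insert,
        Finset.sum_pair hyy] <;>
      simp only [Finset.mem_insert, Finset.mem_singleton] <;> tauto
    exact hF _
  rw [s1, if_neg (g1 y (by rw [hSdef]; simp) hy), if_neg (g1 y' (by rw [hSdef]; simp) hy'),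
    e1, e2, e3, add_zero, add_zero] at hev
  have k1 : hh H x' x'' y y' = if ({x', x'', y, y'} : Finset V) ∈ H then 1 else 0 := by
    unfold hh; simp [h2, hyy]
  have k2 : hh H x x'' y y' = if ({x, x'', y, y'} : Finset V) ∈ H then 1 else 0 := by
    unfold hh; simp [h3, hyy]
  have k3 : hh H x x' y y' = if ({x, x', y, y'} : Finset V) ∈ H then 1 else 0 := by
    unfold hh; simp [h1, hyy]
  rw [k1, k2, k3]
  linear_combination hev

/-- every three-graph comes from a cross function -/
lemma exists_gamma (side : V → Bool) (H : Finset (Finset V)) (hH : ∀ e ∈ H, bal side e)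
    (h5 : ∀ S : Finset V, S.card = 5 → (lf side S).card ≤ 3 → (rt side S).card ≤ 3 →
      Even (H.filter (fun e => e ⊆ S)).card) :
    ∃ Γ : V → V → ZMod 2, ∀ e, e ∈ H ↔ e ∈ HB side Γ := by
  by_cases hx0 : ∃ x0, side x0 = true
  swap
  · refine ⟨fun _ _ => 0, fun e => ?_⟩
    have : ¬ bal side e := by
      intro h
      obtain ⟨x, hx⟩ := Finset.card_pos.mp (by rw [h.1]; norm_num : 0 < (lf side e).card)
      exact hx0 ⟨x, (mem_lf.mp hx).2⟩
    rw [mem_HB]
    exact ⟨fun h => absurd (hH e h) this, fun h => absurd h.1 this⟩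
  by_cases hy0 : ∃ y0, side y0 = false
  swap
  · refine ⟨fun _ _ => 0, fun e => ?_⟩
    have : ¬ bal side e := by
      intro h
      obtain ⟨x, hx⟩ := Finset.card_pos.mp (by rw [h.2]; norm_num : 0 < (rt side e).card)
      exact hy0 ⟨x, (mem_rt.mp hx).2⟩
    rw [mem_HB]
    exact ⟨fun h => absurd (hH e h) this, fun h => absurd h.1 this⟩
  obtain ⟨x0, hx0⟩ := hx0
  obtain ⟨y0, hy0⟩ := hy0
  refine ⟨fun x y => hh H x0 x y0 y, fun e => ?_⟩
  rw [mem_HB]
  have key : bal side e → (e ∈ H ↔ cs side (fun x y => hh H x0 x y0 y) e = 1) := by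
    intro hb
    obtain ⟨x, x', hxx, hl⟩ := Finset.card_eq_two.mp hb.1
    obtain ⟨y, y', hyy, hr⟩ := Finset.card_eq_two.mp hb.2
    have hx : side x = true := (mem_lf.mp (by rw [hl]; simp : x ∈ lf side e)).2
    have hx' : side x' = true := (mem_lf.mp (by rw [hl]; simp : x' ∈ lf side e)).2
    have hy : side y = false := (mem_rt.mp (by rw [hr]; simp : y ∈ rt side e)).2
    have hy' : side y' = false := (mem_rt.mp (by rw [hr]; simp : y' ∈ rt side e)).2
    have he : e = {x, x', y, y'} := by
      ext z
      have h1 : z ∈ lf side e ↔ z = x ∨ z = x' := by rw [hl]; simp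
      have h2 : z ∈ rt side e ↔ z = y ∨ z = y' := by rw [hr]; simp
      rw [mem_lf] at h1
      rw [mem_rt] at h2
      simp only [Finset.mem_insert, Finset.mem_singleton]
      cases hz : side z <;> simp only [hz] at h1 h2 <;> tauto
    have h1 : (e ∈ H) ↔ hh H x x' y y' = 1 := by
      unfold hh
      rw [he]
      by_cases h : ({x, x', y, y'} : Finset V) ∈ H
      · simp [h, hxx, hyy]
      · simp [h]
    rw [h1]
    unfold cs
    rw [hl, hr, Finset.sum_pair hxx, Finset.sum_pair hyy, Finset.sum_pair hyy]
    have c1 := coc_aux side H hH h5 true hx0 hx hx' (y := y) (y' := y') hy hy'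
    have c2 := coc_aux side H hH h5 false hy0 hy hy' (y := x0) (y' := x) hx0 hx
    have c3 := coc_aux side H hH h5 false hy0 hy hy' (y := x0) (y' := x') hx0 hx'
    rw [hh_swap H y0 y, hh_swap H y y', hh_swap H y0 y'] at c2 c3
    revert c1 c2 c3
    beta_reduce
    generalize hh H x0 x y y' = a1
    generalize hh H x x' y y' = a2
    generalize hh H x0 x' y y' = a3
    generalize hh H x0 x y0 y = a4
    generalize hh H x0 x y0 y' = a5
    generalize hh H x0 x' y0 y = a6
    generalize hh H x0 x' y0 y' = a7
    revert a1 a2 a3 a4 a5 a6 a7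
    decide
  constructor
  · intro h
    exact ⟨hH e h, (key (hH e h)).mp h⟩
  · rintro ⟨hb, h⟩
    exact (key hb).mpr h

end structureA

section ext
variable {V : Type} [Fintype V] [DecidableEq V]

/-- vertices of the extension -/
abbrev BB (V : Type) := Bool × V × (V → ZMod 2)

/-- cross function of the extension -/
def EE (u v : BB V) : ZMod 2 := u.2.2 v.2.1 + v.2.2 u.2.1

lemma EE_comm (u v : BB V) : EE u v = EE v u := by
  unfold EE; rw [add_comm]

lemma extend_perm (side : V → Bool) (S : Finset V) (p : V → V) (hp : Set.InjOn p (S : Set V))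
    (b : Bool) : ∃ π : V ≃ V, ∀ x ∈ S, side x = b → π x = p x := by
  obtain ⟨g, hg⟩ := Finset.exists_equiv_extend_of_card_eq (α := V) (β := V) (t := Finset.univ)
    (by rw [Finset.card_univ]) (s := S.filter (fun x => side x = b)) (f := p)
    (Finset.subset_univ _) (fun x hx y hy h => hp (by simp at hx; exact hx.1)
      (by simp at hy; exact hy.1) h)
  refine ⟨g.trans (Equiv.subtypeUnivEquiv (fun x => Finset.mem_univ x)), fun x hx hb => ?_⟩
  have := hg x (by rw [Finset.mem_filter]; exact ⟨hx, hb⟩)
  simpa using this

/-- the automorphism of the extension -/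
def tau (π ρ : V ≃ V) (d e : V → V → ZMod 2) (w : BB V) : BB V :=
  match w with
  | (true, x, χ) => (true, π x, fun z => χ (ρ.symm z) + d x (ρ.symm z))
  | (false, y, χ) => (false, ρ y, fun z => χ (π.symm z) + e y (π.symm z))

lemma tau_inj (π ρ : V ≃ V) (d e : V → V → ZMod 2) : Function.Injective (tau π ρ d e) := by
  rintro ⟨b, x, χ⟩ ⟨b', x', χ'⟩ h
  cases b <;> cases b' <;> simp only [tau, Prod.mk.injEq] at h
  · obtain ⟨-, h1, h2⟩ := h
    have h1 := ρ.injective h1
    subst h1
    have : χ = χ' := by
      ext z
      have := congrFun h2 (π z)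
      simpa using this
    rw [this]
  · exact absurd h.1 (by simp)
  · exact absurd h.1 (by simp)
  · obtain ⟨-, h1, h2⟩ := h
    have h1 := π.injective h1
    subst h1
    have : χ = χ' := by
      ext z
      have := congrFun h2 (ρ z)
      simpa using this
    rw [this]

lemma rank_one (SX SY : V → Prop) (D : V → V → ZMod 2)
    (hD : ∀ x x' y y', SX x → SX x' → SY y → SY y' → D x y + D x y' + D x' y + D x' y' = 0) :
    ∃ a b : V → ZMod 2, ∀ x y, SX x → SY y → D x y = a x + b y := by
  classical
  by_cases hx : ∃ x0, SX x0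
  swap
  · exact ⟨fun _ => 0, fun _ => 0, fun x y h => absurd ⟨x, h⟩ hx⟩
  by_cases hy : ∃ y0, SY y0
  swap
  · exact ⟨fun _ => 0, fun _ => 0, fun x y _ h => absurd ⟨y, h⟩ hy⟩
  obtain ⟨x0, hx0⟩ := hx
  obtain ⟨y0, hy0⟩ := hy
  refine ⟨fun x => D x y0, fun y => D x0 y + D x0 y0, fun x y hx hy => ?_⟩
  have := hD x x0 y y0 hx hx0 hy hy0
  revert this
  beta_reduce
  generalize D x y = a1
  generalize D x y0 = a2
  generalize D x0 y = a3
  generalize D x0 y0 = a4
  revert a1 a2 a3 a4
  decide

lemma ext_auto (side : V → Bool) (S : Finset V) (p : V → V) (hp : Set.InjOn p (S : Set V))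
    (θ η : V → V → ZMod 2)
    (hD : ∀ x x' y y', (x ∈ S ∧ side x = true) → (x' ∈ S ∧ side x' = true) →
      (y ∈ S ∧ side y = false) → (y' ∈ S ∧ side y' = false) →
      (θ x y + θ y x + η x (p y) + η y (p x)) + (θ x y' + θ y' x + η x (p y') + η y' (p x)) +
      (θ x' y + θ y x' + η x' (p y) + η y (p x')) +
      (θ x' y' + θ y' x' + η x' (p y') + η y' (p x')) = 0) :
    ∃ (τ : BB V ≃ BB V) (α : BB V → ZMod 2), (∀ w, (τ w).1 = w.1) ∧
      (∀ u v : BB V, u.1 = true → v.1 = false → EE (τ u) (τ v) = EE u v + α u + α v) ∧
      ∀ x ∈ S, τ (side x, x, θ x) = (side x, p x, η x) := by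
  classical
  obtain ⟨π, hπ⟩ := extend_perm side S p hp true
  obtain ⟨ρ, hρ⟩ := extend_perm side S p hp false
  obtain ⟨a, b, hab⟩ := rank_one (fun x => x ∈ S ∧ side x = true) (fun y => y ∈ S ∧ side y = false)
    (fun x y => θ x y + θ y x + η x (p y) + η y (p x)) hD
  let d : V → V → ZMod 2 := fun x y =>
    if x ∈ S ∧ side x = true then η x (ρ y) + θ x y
    else if y ∈ S ∧ side y = false then a x + b y + η y (π x) + θ y x else 0
  let e : V → V → ZMod 2 := fun y x => a x + b y + d x y
  have hτb : Function.Bijective (tau π ρ d e) := (tau_inj π ρ d e).bijective_of_finite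
  refine ⟨Equiv.ofBijective _ hτb, fun w => if w.1 = true then a w.2.1 else b w.2.1, ?_, ?_, ?_⟩
  · rintro ⟨c, x, χ⟩
    cases c <;> rfl
  · rintro ⟨c, x, χ⟩ ⟨c', y, χ'⟩ hc hc'
    simp only at hc hc'
    subst hc hc'
    simp only [Equiv.ofBijective_apply, tau, EE, Equiv.symm_apply_apply, if_true, e,
      Bool.false_eq_true, if_false]
    generalize d x y = t1
    generalize a x = t2
    generalize b y = t3
    generalize χ y = t4
    generalize χ' x = t5
    revert t1 t2 t3 t4 t5
    decide
  · intro x hx
    cases hs : side x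
    · simp only [Equiv.ofBijective_apply, tau, Prod.mk.injEq, true_and]
      refine ⟨hρ x hx hs, ?_⟩
      funext z
      simp only [e, d]
      by_cases hz : π.symm z ∈ S ∧ side (π.symm z) = true
      · rw [if_pos hz]
        have h1 := hab _ _ hz ⟨hx, hs⟩
        beta_reduce at h1
        rw [← hπ _ hz.1 hz.2, ← hρ x hx hs, Equiv.apply_symm_apply] at h1
        revert h1
        generalize θ (π.symm z) x = t1
        generalize θ x (π.symm z) = t2
        generalize η (π.symm z) (ρ x) = t3
        generalize η x z = t4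
        generalize a (π.symm z) = t5
        generalize b x = t6
        revert t1 t2 t3 t4 t5 t6
        decide
      · rw [if_neg hz, if_pos ⟨hx, hs⟩, Equiv.apply_symm_apply]
        generalize θ x (π.symm z) = t2
        generalize η x z = t4
        generalize a (π.symm z) = t5
        generalize b x = t6
        revert t2 t4 t5 t6
        decide
    · simp only [Equiv.ofBijective_apply, tau, Prod.mk.injEq, true_and]
      refine ⟨hπ x hx hs, ?_⟩
      funext z
      simp only [d]
      rw [if_pos ⟨hx, hs⟩, Equiv.apply_symm_apply]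
      generalize θ x (ρ.symm z) = t2
      generalize η x z = t4
      revert t2 t4
      decide

end ext

end Pool.Agent.Q277.TG
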